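import Pool.Agent.H45.RPL.Tel
import Pool.Agent.H8.DPL.Lay
import Pool.Agent.H41.RPL.H6one

/-!
# The plateau of the thickness: the hypotheses of theorem PLV in one context
-/

set_option autoImplicit false

namespace Pool.RPL

open Finset Real
open Pool.Agent.H49.Ent Pool.Agent.H32.Dense Pool.STK Pool.KA Pool.KSAT Pool.K2S Pool.PLV
  Pool.UST

section ent

variable {Ω Ω' S T U V : Type} [Fintype Ω] [Fintype Ω'] {p : Ω → ℝ}

/-- The entropy on an event. -/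
theorem CH_ev_le (hp : ∀ ω, 0 ≤ p ω) (X : Ω → S) (Z : Ω → T) (E : Ω → Prop) :
    Pe p E * CH (Pool.Agent.H49.Ent.cond p E True) X Z ≤ CH p X Z := by
  classical
  have h1 : CH p X (fun v => (Z v, E v)) ≤ CH p X Z :=
    CH_mono_cond hp (fun _ _ _ _ h => (Prod.ext_iff.mp h).1)
  rw [CH_split hp X Z E] at h1
  have h3 : ∀ j : Prop, 0 ≤ law p E j * CH (Pool.Agent.H49.Ent.cond p E j) X Z := fun j =>
    mul_nonneg (law_nonneg hp _ _) (CH_nonneg (cond_nonneg hp _ _) _ _)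
  refine le_trans ?_ h1
  rw [← law_true]
  by_cases hm : True ∈ univ.image E
  · exact Finset.single_le_sum (f := fun j => law p E j *
      CH (Pool.Agent.H49.Ent.cond p E j) X Z) (fun j _ => h3 j) hm
  · rw [law_eq_zero_of_notMem p E hm, zero_mul]
    exact Finset.sum_nonneg fun j _ => h3 j

theorem cond_ev_eq (p : Ω → ℝ) (E : Ω → Prop) (ω : Ω) :
    (open Classical in Pool.Agent.H49.Ent.cond p E True ω =
      if E ω then p ω / Pe p E else 0) := by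
  classical
  unfold Pool.Agent.H49.Ent.cond
  by_cases h : E ω
  · simp only [h, if_true]
  · simp [h]

theorem cond_and_ev (p : Ω → ℝ) {A E : Ω → Prop} (hA : Pe p A ≠ 0) :
    Pool.Agent.H49.Ent.cond (Pool.Agent.H49.Ent.cond p A True) E True =
      Pool.Agent.H49.Ent.cond p (fun ω => A ω ∧ E ω) True := by
  classical
  funext ω
  rw [cond_ev_eq, cond_ev_eq, cond_ev_eq, Pe_cond E]
  by_cases h1 : A ω
  · by_cases h2 : E ω
    · rw [if_pos h2, if_pos h1, if_pos (⟨h1, h2⟩ : A ω ∧ E ω), div_div_div_cancel_right₀ hA]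
    · rw [if_neg h2, if_neg (fun h : A ω ∧ E ω => h2 h.2)]
  · rw [if_neg h1, if_neg (fun h : A ω ∧ E ω => h1 h.1), zero_div, ite_self]

/-- The marginal of the law on an event. -/
theorem marg_ev {q : Ω' → ℝ} (hq : IsLaw q) {pr : Ω' → Ω} (hm : Marg q p pr) {E : Ω' → Prop}
    (hE : 0 < Pe q E) : ∃ μ : Ω → ℝ, IsLaw μ ∧
      Marg (Pool.Agent.H49.Ent.cond q E True) μ pr ∧ ∀ ω, μ ω ≤ 1 / Pe q E * p ω := by
  classical
  have hc : IsLaw (Pool.Agent.H49.Ent.cond q E True) := isLaw_cond hq hE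
  have hM : Marg (Pool.Agent.H49.Ent.cond q E True)
      (fun ω => ∑ x, if pr x = ω then Pool.Agent.H49.Ent.cond q E True x else 0) pr := by
    intro ω
    refine Finset.sum_congr rfl fun x _ => ?_
    by_cases h : pr x = ω
    · rw [if_pos h]
    · rw [if_neg h]
  refine ⟨_, ⟨fun ω => ?_, ?_⟩, hM, fun ω => ?_⟩
  · refine Finset.sum_nonneg fun x _ => ?_
    split_ifs
    · exact hc.nonneg x
    · exact le_rfl
  · rw [← hM.sum, hc.sum_one]
  · have h1 := hm ω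
    rw [← h1, Finset.mul_sum]
    refine Finset.sum_le_sum fun x _ => ?_
    by_cases h : pr x = ω
    · rw [if_pos h, if_pos h, cond_ev_eq]
      split_ifs
      · rw [div_eq_mul_one_div, mul_comm]
      · exact mul_nonneg (by positivity) (hq.nonneg x)
    · rw [if_neg h, if_neg h, mul_zero]

end ent

section dig

theorem fl_fl {m X : ℕ} (h : m ≤ X) (x : ℝ) :
    ⌊(2 : ℝ) ^ m * ((⌊(2 : ℝ) ^ X * x⌋ : ℝ) / 2 ^ X)⌋ = ⌊(2 : ℝ) ^ m * x⌋ := by
  obtain ⟨d, rfl⟩ := Nat.exists_eq_add_of_le h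
  have e1 : (2 : ℝ) ^ m * ((⌊(2 : ℝ) ^ (m + d) * x⌋ : ℝ) / 2 ^ (m + d)) =
      (⌊(2 : ℝ) ^ (m + d) * x⌋ : ℝ) / ((2 ^ d : ℕ) : ℝ) := by
    push_cast
    rw [pow_add]
    field_simp
  have e2 : (2 : ℝ) ^ m * x = (2 : ℝ) ^ (m + d) * x / ((2 ^ d : ℕ) : ℝ) := by
    push_cast
    rw [pow_add]
    field_simp
  rw [e1, e2, Int.floor_div_natCast, Int.floor_div_natCast, Int.floor_intCast]

end dig

variable {J : ℕ} {F : Fam 3 J} {Q : F.Ω → ℝ} {σ : Fin 3 → Fin 3} {w r U P X : ℕ}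
  {a s t : F.Ω → ℝ} {kk bb : (Fin 3 → ℤ) × (ℕ × F.ζ) → ℝ} {B : ℝ}

/-- The digits of the velocity and the cells. -/
theorem D_md {m : ℕ} (ω : F.Ω) : F.D (r - w + m) ω (σ 0) =
    ⌊(2 : ℝ) ^ m * F.md (vpr w r U P) (fm F σ a s t) ω 0⌋ +
      2 ^ m * F.mvl (vpr w r U P) (fm F σ a s t) ω 0 := by
  have h1 := Box.fl_md F (vpr w r U P) (fm F σ a s t) m ω 0
  have h2 : F.mvl (fun i => vpr w r U P i + m) (fm F σ a s t) ω 0 = F.D (r - w + m) ω (σ 0) := by
    show ⌊(2 : ℝ) ^ (vpr w r U P 0 + m) * mco (tfr σ (a ω) (s ω) (t ω)) (F.d ω) 0⌋ = _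
    rw [Box.mco_tfr0]
    rfl
  rw [h1, h2]
  ring

theorem ctx_T1 {ω ω' : F.Ω} (h : F.ctx σ w r U P a s t ω = F.ctx σ w r U P a s t ω') :
    F.T1 w ω = F.T1 w ω' :=
  (Box.mlb_ext (F := F) (g := w) (k := fun i => vpr w r U P i + w) (c := vpr w r U P)
    (M := fm F σ a s t) h).1

/-- The time given the line and the window, and given less. -/
theorem time_cmp (hQ : IsLaw Q) (hw : w ≤ J) {e : ℝ}
    (hT : (J : ℝ) * Real.log 2 - e ≤ CH Q F.T (fun ω => (F.l ω, F.Z ω))) {β : Type}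
    (b : F.Ω → β) (hb : Det Q b (F.T1 w)) :
    CH Q F.T b ≤ CH Q F.T (slam F w) + e := by
  have h1 := Pool.S6N.time_lab F hQ hw (F.T1 w) (slam F w) (fun ω ω' h =>
    ⟨(Prod.ext_iff.mp (Prod.ext_iff.mp h).2).2, h⟩) (fun ω ω' h => h) hT
  have h2 : CH Q F.T (fun ω => (slam F w ω, F.T1 w ω)) ≤ CH Q F.T (slam F w) :=
    CH_mono_cond hQ.nonneg fun ω ω' _ _ h => (Prod.ext_iff.mp h).1
  have h3 : CH Q F.T b ≤ CH Q F.T (F.T1 w) := CH_mono_cond hQ.nonneg hb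
  linarith

/-- The facts on the pairs. -/
theorem pair_facts (hQ : IsLaw Q) : IsLaw (cpy Q (slam F w)) ∧
    Marg (cpy Q (slam F w)) Q (fun x => x.1) ∧ Marg (cpy Q (slam F w)) Q (fun x => x.2) ∧
    (∀ x, 0 < cpy Q (slam F w) x → 0 < Q x.1 ∧ 0 < Q x.2 ∧ slam F w x.1 = slam F w x.2) ∧
    (∀ {S : Type} (f : F.Ω → S), CH (cpy Q (slam F w)) (fun x => f x.1)
      (fun x => (slam F w x.1, x.2)) = CH Q f (slam F w)) ∧
    ∀ {S : Type} (f : F.Ω → S), CH (cpy Q (slam F w)) (fun x => f x.2)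
      (fun x => (slam F w x.2, x.1)) = CH Q f (slam F w) := by
  obtain ⟨hL, h1, h2, -, hpos, -⟩ := cpy_thm F.Ω _ Q hQ (slam F w)
  have h0 := hQ.nonneg
  refine ⟨hL, h1, h2, hpos, fun f => ?_, fun f => ?_⟩
  · exact CH_glue_fst (p₁ := Q) (p₂ := Q) (Z₁ := slam F w) (Z₂ := slam F w) h0 h0
      (fun _ => rfl) f (Y := slam F w) (fun ω => ω) (fun _ _ _ _ h => h)
  · exact CH_glue_snd (p₁ := Q) (p₂ := Q) (Z₁ := slam F w) (Z₂ := slam F w) h0 h0
      (fun _ => rfl) f (Y := slam F w) (fun ω => ω) (fun _ _ _ _ h => h)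

/-- **(h1)** -/
theorem hyp1 (hQ : IsLaw Q) (hdet : Fdet F Q w a s t) (hw : w ≤ J) {e : ℝ}
    (hT : (J : ℝ) * Real.log 2 - e ≤ CH Q F.T (fun ω => (F.l ω, F.Z ω))) :
    Pool.KVA.MI (cpy Q (slam F w)) (fun x => F.T x.1)
      (fun x => (lk F σ w r U P X a s t x.1, (F.T x.2, rc F r P X kk x.2)))
      (fun x => (F.ctx σ w r U P a s t x.1, ())) ≤ e := by
  obtain ⟨hL, m1, m2, hpos, i1, i2⟩ := pair_facts (F := F) (w := w) hQ
  have h0 := hL.nonneg
  rw [MI_eq_dl h0]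
  have g1 : CH (cpy Q (slam F w)) (fun x => F.T x.1) (fun x => (F.ctx σ w r U P a s t x.1, ())) ≤
      CH Q F.T (slam F w) + e := by
    rw [m1.CH F.T (fun ω => (F.ctx σ w r U P a s t ω, ()))]
    exact time_cmp hQ hw hT _ fun ω ω' _ _ h => ctx_T1 (Prod.ext_iff.mp h).1
  have g2 : CH Q F.T (slam F w) ≤ CH (cpy Q (slam F w)) (fun x => F.T x.1)
      (fun x => ((lk F σ w r U P X a s t x.1, (F.T x.2, rc F r P X kk x.2)),
        (F.ctx σ w r U P a s t x.1, ()))) := by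
    rw [← i1 F.T]
    refine CH_mono_cond h0 fun x x' hx hx' h => ?_
    have e1 : slam F w x.1 = slam F w x'.1 := (Prod.ext_iff.mp h).1
    have e2 : x.2 = x'.2 := (Prod.ext_iff.mp h).2
    obtain ⟨k1, k2, k3⟩ := place_slam (σ := σ) (r := r) (U := U) (P := P) hdet (hpos x hx).1
      (hpos x' hx').1 e1
    have e3 : lk F σ w r U P X a s t x.1 = lk F σ w r U P X a s t x'.1 := by
      unfold lk
      rw [k2, k3]
    rw [k1, e2, e3]
  unfold dl
  linarith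

/-- **(h1')** -/
theorem hyp1' (hQ : IsLaw Q) (hdet : Fdet F Q w a s t) (hw : w + X ≤ J) {e : ℝ}
    (hT : (J : ℝ) * Real.log 2 - e ≤ CH Q F.T (fun ω => (F.l ω, F.Z ω))) :
    X * Real.log 2 - e ≤ CH (cpy Q (slam F w)) (Uni.dg X (fun x => F.wt w x.1))
      (fun x => (lk F σ w r U P X a s t x.1, ((F.T x.2, rc F r P X kk x.2),
        (F.ctx σ w r U P a s t x.1, ())))) := by
  obtain ⟨hL, m1, m2, hpos, i1, i2⟩ := pair_facts (F := F) (w := w) hQ
  have h0 := hL.nonneg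
  have g1 := Pool.S6N.time_dig F hQ (by omega : w ≤ J) (slam F w) (fun _ _ h => h) hT hw
  refine g1.trans ?_
  rw [← i1 (Uni.dg X (F.wt w))]
  refine CH_mono_cond h0 fun x x' hx hx' h => ?_
  have e1 : slam F w x.1 = slam F w x'.1 := (Prod.ext_iff.mp h).1
  have e2 : x.2 = x'.2 := (Prod.ext_iff.mp h).2
  obtain ⟨k1, k2, k3⟩ := place_slam (σ := σ) (r := r) (U := U) (P := P) hdet (hpos x hx).1
    (hpos x' hx').1 e1
  have e3 : lk F σ w r U P X a s t x.1 = lk F σ w r U P X a s t x'.1 := by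
    unfold lk
    rw [k2, k3]
  rw [k1, e2, e3]

/-- The second time is nearly independent of the line. -/
theorem time2 (hQ : IsLaw Q) (hdet : Fdet F Q w a s t) (hw : w ≤ J) {e : ℝ}
    (hT : (J : ℝ) * Real.log 2 - e ≤ CH Q F.T (fun ω => (F.l ω, F.Z ω))) :
    dl (cpy Q (slam F w)) (fun x => F.T x.2) (fun x => lk F σ w r U P X a s t x.1)
      (fun x => ((F.ctx σ w r U P a s t x.1, ()), F.T x.1)) ≤ e := by
  obtain ⟨hL, m1, m2, hpos, i1, i2⟩ := pair_facts (F := F) (w := w) hQ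
  have h0 := hL.nonneg
  have g1 : CH (cpy Q (slam F w)) (fun x => F.T x.2)
      (fun x => ((F.ctx σ w r U P a s t x.1, ()), F.T x.1)) ≤ CH Q F.T (slam F w) + e := by
    have g3 : CH (cpy Q (slam F w)) (fun x => F.T x.2)
        (fun x => ((F.ctx σ w r U P a s t x.1, ()), F.T x.1)) ≤
        CH (cpy Q (slam F w)) (fun x => F.T x.2) (fun x => F.T1 w x.2) := by
      refine CH_mono_cond h0 fun x x' hx hx' h => ?_
      have e1 : F.T1 w x.1 = F.T1 w x'.1 :=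
        ctx_T1 (Prod.ext_iff.mp (Prod.ext_iff.mp h).1).1
      have e2 : F.T1 w x.1 = F.T1 w x.2 :=
        (Prod.ext_iff.mp (Prod.ext_iff.mp (hpos x hx).2.2).2).2
      have e3 : F.T1 w x'.1 = F.T1 w x'.2 :=
        (Prod.ext_iff.mp (Prod.ext_iff.mp (hpos x' hx').2.2).2).2
      show F.T1 w x.2 = F.T1 w x'.2
      rw [← e2, e1, e3]
    refine g3.trans ?_
    rw [m2.CH F.T (F.T1 w)]
    exact time_cmp hQ hw hT _ fun ω ω' _ _ h => h
  have g2 : CH Q F.T (slam F w) ≤ CH (cpy Q (slam F w)) (fun x => F.T x.2)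
      (fun x => (lk F σ w r U P X a s t x.1, ((F.ctx σ w r U P a s t x.1, ()), F.T x.1))) := by
    rw [← i2 F.T]
    refine CH_mono_cond h0 fun x x' hx hx' h => ?_
    have e2 : x.1 = x'.1 := (Prod.ext_iff.mp h).2
    rw [e2]
  unfold dl
  linarith

/-- The digits of the position given its cells. -/
theorem blk_near (hQ : IsLaw Q) (hw : w ≤ J) (hwr : w ≤ r) (hrU : r ≤ U) (hUP : U ≤ P) :
    CH Q (fun ω => (⌊(2 : ℝ) ^ X * xv F σ w r U P X a s t 0 ω⌋,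
        (fun _ : Fin 1 => ⌊(2 : ℝ) ^ X * xv F σ w r U P X a s t 2 ω⌋)))
      (fun ω => (F.sbx σ (r + X) U (P + X) a s t ω, (F.ctx σ w r U P a s t ω, F.T ω))) ≤
      2 * Real.log 17 := by
  have h0 := hQ.nonneg
  have hv : ∀ i, vpr w r U P i + w = ppr r U P i := fun i =>
    Box.vpr_add hwr (hwr.trans hrU) ((hwr.trans hrU).trans hUP) i
  have near : ∀ (i : Fin 3) (ω : F.Ω) (z : ℤ),
      z = ⌊(2 : ℝ) ^ (ppr r U P i + X) * mco (fm F σ a s t ω) (F.x ω) i⌋ →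
      |((⌊(2 : ℝ) ^ X * xv F σ w r U P X a s t i ω⌋ : ℤ) : ℝ) -
        ((z : ℝ) - 2 ^ X * F.mkn w (vpr w r U P) (fm F σ a s t) ω i)| ≤ 4 := by
    intro i ω z hz
    have hwt := Lab.wt_mem F w ω
    have k1 := fl_near' (F.mu w (fun i => vpr w r U P i + w) (fm F σ a s t) ω i) X
    have k2 := fl_near' (F.md (vpr w r U P) (fm F σ a s t) ω i) X
    have k3 := Box.pos_eq F hw (vpr w r U P) (fm F σ a s t) ω i
    have e0 : F.mx w (vpr w r U P) (fm F σ a s t) ω i =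
      F.mu w (fun i => vpr w r U P i + w) (fm F σ a s t) ω i +
        F.wt w ω * F.md (vpr w r U P) (fm F σ a s t) ω i := rfl
    rw [e0, hv] at k3
    have f1 := Int.floor_le ((2 : ℝ) ^ X * xv F σ w r U P X a s t i ω)
    have f2 := Int.lt_floor_add_one ((2 : ℝ) ^ X * xv F σ w r U P X a s t i ω)
    have f3 := Int.floor_le ((2 : ℝ) ^ (ppr r U P i + X) * mco (fm F σ a s t ω) (F.x ω) i)
    have f4 := Int.lt_floor_add_one ((2 : ℝ) ^ (ppr r U P i + X) *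
      mco (fm F σ a s t ω) (F.x ω) i)
    rw [← hz] at f3 f4
    have e1 : (2 : ℝ) ^ (ppr r U P i + X) * mco (fm F σ a s t ω) (F.x ω) i =
        2 ^ X * (2 ^ ppr r U P i * mco (fm F σ a s t ω) (F.x ω) i) := by
      rw [pow_add]
      ring
    rw [e1, k3] at f3 f4
    have h2 : (0 : ℝ) < 2 ^ X := by positivity
    have g1 : |(yv F σ w r U P X a s t i ω -
        F.mu w (fun i => vpr w r U P i + w) (fm F σ a s t) ω i) * 2 ^ X| ≤ 1 := by
      rw [abs_mul, abs_of_pos h2]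
      exact k1
    have g2 : |(ov F σ w r U P X a s t i ω - F.md (vpr w r U P) (fm F σ a s t) ω i) *
        2 ^ X| ≤ 1 := by
      rw [abs_mul, abs_of_pos h2]
      exact k2
    rw [abs_le] at g1 g2
    have g3 : |F.wt w ω * ((ov F σ w r U P X a s t i ω -
        F.md (vpr w r U P) (fm F σ a s t) ω i) * 2 ^ X)| ≤ 1 := by
      rw [abs_mul, abs_of_nonneg hwt.1]
      have : F.wt w ω * |(ov F σ w r U P X a s t i ω -
        F.md (vpr w r U P) (fm F σ a s t) ω i) * 2 ^ X| ≤ 1 * 1 :=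
        mul_le_mul hwt.2.le (abs_le.2 g2) (abs_nonneg _) zero_le_one
      linarith
    rw [abs_le] at g3
    have e2 : (2 : ℝ) ^ X * xv F σ w r U P X a s t i ω =
        2 ^ X * yv F σ w r U P X a s t i ω +
          2 ^ X * (F.wt w ω * ov F σ w r U P X a s t i ω) := by
      unfold xv
      ring
    have g1a := g1.1
    have g1b := g1.2
    have g3a := g3.1
    have g3b := g3.2
    rw [abs_le]
    constructor
    · linarith
    · linarith
  have det : ∀ ω ω' : F.Ω, (F.sbx σ (r + X) U (P + X) a s t ω,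
      (F.ctx σ w r U P a s t ω, F.T ω)) = (F.sbx σ (r + X) U (P + X) a s t ω',
      (F.ctx σ w r U P a s t ω', F.T ω')) →
      F.mkn w (vpr w r U P) (fm F σ a s t) ω = F.mkn w (vpr w r U P) (fm F σ a s t) ω' ∧
      ⌊(2 : ℝ) ^ (r + X) * mco (fm F σ a s t ω) (F.x ω) 0⌋ =
        ⌊(2 : ℝ) ^ (r + X) * mco (fm F σ a s t ω') (F.x ω') 0⌋ ∧
      ⌊(2 : ℝ) ^ (P + X) * mco (fm F σ a s t ω) (F.x ω) 2⌋ =
        ⌊(2 : ℝ) ^ (P + X) * mco (fm F σ a s t ω') (F.x ω') 2⌋ := by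
    intro ω ω' h
    have h1 := Prod.ext_iff.mp h
    have h2 := Prod.ext_iff.mp h1.2
    obtain ⟨-, g1, g2, g3⟩ := Vd.sbx_ext.1 h1.1
    exact ⟨Box.mkn_det (F := F) (w := w) (c := vpr w r U P) (M := fm F σ a s t) h2.1 h2.2,
      g1, g3⟩
  have key : ∀ i : Fin 3, (i = 0 ∨ i = 2) →
      CH Q (fun ω => ⌊(2 : ℝ) ^ X * xv F σ w r U P X a s t i ω⌋)
      (fun ω => (F.sbx σ (r + X) U (P + X) a s t ω, (F.ctx σ w r U P a s t ω, F.T ω))) ≤
      Real.log 17 := by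
    intro i hi
    have h1 := Sel.CH_near hQ (fun ω => ⌊(2 : ℝ) ^ X * xv F σ w r U P X a s t i ω⌋)
      (fun ω => (F.sbx σ (r + X) U (P + X) a s t ω, (F.ctx σ w r U P a s t ω, F.T ω)))
      (fun ω => ((⌊(2 : ℝ) ^ (ppr r U P i + X) * mco (fm F σ a s t ω) (F.x ω) i⌋ : ℤ) : ℝ) -
        2 ^ X * F.mkn w (vpr w r U P) (fm F σ a s t) ω i)
      (fun ω ω' _ _ h => by
        obtain ⟨d1, d2, d3⟩ := det ω ω' h
        have d4 : ⌊(2 : ℝ) ^ (ppr r U P i + X) * mco (fm F σ a s t ω) (F.x ω) i⌋ =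
            ⌊(2 : ℝ) ^ (ppr r U P i + X) * mco (fm F σ a s t ω') (F.x ω') i⌋ := by
          rcases hi with h | h
          · subst h
            exact d2
          · subst h
            exact d3
        simp only
        rw [d1, d4])
      (K := 4) (by norm_num) (fun ω _ => near i ω _ rfl)
    refine h1.trans (Real.log_le_log (by norm_num) (by norm_num))
  have k1 := key 0 (Or.inl rfl)
  have k2 := key 2 (Or.inr rfl)
  have k3 := CH_subadd h0 (fun ω => ⌊(2 : ℝ) ^ X * xv F σ w r U P X a s t 0 ω⌋)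
    (fun ω (_ : Fin 1) => ⌊(2 : ℝ) ^ X * xv F σ w r U P X a s t 2 ω⌋)
    (fun ω => (F.sbx σ (r + X) U (P + X) a s t ω, (F.ctx σ w r U P a s t ω, F.T ω)))
  have k4 : CH Q (fun ω (_ : Fin 1) => ⌊(2 : ℝ) ^ X * xv F σ w r U P X a s t 2 ω⌋)
      (fun ω => (F.sbx σ (r + X) U (P + X) a s t ω, (F.ctx σ w r U P a s t ω, F.T ω))) ≤
      CH Q (fun ω => ⌊(2 : ℝ) ^ X * xv F σ w r U P X a s t 2 ω⌋)
      (fun ω => (F.sbx σ (r + X) U (P + X) a s t ω, (F.ctx σ w r U P a s t ω, F.T ω))) := by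
    refine CH_mono_left h0 fun ω ω' _ _ h => ?_
    have h1 : ⌊(2 : ℝ) ^ X * xv F σ w r U P X a s t 2 ω⌋ =
      ⌊(2 : ℝ) ^ X * xv F σ w r U P X a s t 2 ω'⌋ := (Prod.ext_iff.mp h).1
    funext _
    exact h1
  linarith

end Pool.RPL
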