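import Pool.Agent.H45.RPL.Hyp

/-!
# The plateau of the thickness: independence and activity in one context
-/

set_option autoImplicit false

namespace Pool.RPL

open Finset Real
open Pool.Agent.H49.Ent Pool.Agent.H32.Dense Pool.STK Pool.KA Pool.KSAT Pool.K2S Pool.PLV
  Pool.UST

variable {J : ℕ} {F : Fam 3 J} {Q : F.Ω → ℝ} {σ : Fin 3 → Fin 3} {w r U P X : ℕ}
  {a s t : F.Ω → ℝ} {kk bb : (Fin 3 → ℤ) × (ℕ × F.ζ) → ℝ} {B : ℝ}

theorem dg_ov {m : ℕ} (h : m ≤ X) (i : Fin 3) (ω : F.Ω) :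
    ⌊(2 : ℝ) ^ m * ov F σ w r U P X a s t i ω⌋ =
      ⌊(2 : ℝ) ^ m * F.md (vpr w r U P) (fm F σ a s t) ω i⌋ := fl_fl h _

/-- **(h2)** -/
theorem hyp2 (hQ : IsLaw Q) (hdet : Fdet F Q w a s t) (hw : w ≤ J) (hwr : w ≤ r) (hrU : r ≤ U)
    (hUP : U ≤ P) {e : ℝ}
    (hT : (J : ℝ) * Real.log 2 - e ≤ CH Q F.T (fun ω => (F.l ω, F.Z ω))) :
    Pool.KVA.MI (cpy Q (slam F w))
      (blk X (fun x => xv F σ w r U P X a s t 0 x.1) (fun x (_ : Fin 1) =>
        xv F σ w r U P X a s t 2 x.1))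
      (fun x => ((Uni.dg X (fun x : F.Ω × F.Ω => ov F σ w r U P X a s t 0 x.1) x,
        dgv X (fun (x : F.Ω × F.Ω) (_ : Fin 1) => ov F σ w r U P X a s t 2 x.1) x),
        (F.T x.2, rc F r P X kk x.2)))
      (fun x => ((F.ctx σ w r U P a s t x.1, ()), F.T x.1)) ≤
      dl Q (F.sbx σ (r + X) U (P + X) a s t) (vk F σ w r U P X a s t)
        (fun ω => (F.ctx σ w r U P a s t ω, F.T ω)) + 2 * Real.log 17 + e +
      dl (cpy Q (slam F w)) (fun x => rc F r P X kk x.2) (fun x => lk F σ w r U P X a s t x.1)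
        (fun x => (F.ctx σ w r U P a s t x.1, (F.T x.1, F.T x.2))) := by
  obtain ⟨hL, m1, m2, hpos, i1, i2⟩ := pair_facts (F := F) (w := w) hQ
  have h0 := hL.nonneg
  rw [MI_eq_dl h0]
  obtain ⟨N, hN⟩ : ∃ N : F.Ω × F.Ω → ℤ × (Fin 1 → ℤ), N =
      blk X (fun x => xv F σ w r U P X a s t 0 x.1) (fun x (_ : Fin 1) =>
        xv F σ w r U P X a s t 2 x.1) := ⟨_, rfl⟩
  obtain ⟨V, hV⟩ : ∃ V : F.Ω × F.Ω → ℤ × (Fin 1 → ℤ), V =
      fun x => (Uni.dg X (fun x : F.Ω × F.Ω => ov F σ w r U P X a s t 0 x.1) x,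
        dgv X (fun (x : F.Ω × F.Ω) (_ : Fin 1) => ov F σ w r U P X a s t 2 x.1) x) := ⟨_, rfl⟩
  obtain ⟨R, hR⟩ : ∃ R : F.Ω × F.Ω → ℕ × ℤ, R = fun x => (F.T x.2, rc F r P X kk x.2) :=
    ⟨_, rfl⟩
  have s1 : dl (cpy Q (slam F w)) N (fun x => (V x, R x))
      (fun x => ((F.ctx σ w r U P a s t x.1, ()), F.T x.1)) ≤
      dl (cpy Q (slam F w)) N V (fun x => ((F.ctx σ w r U P a s t x.1, ()), F.T x.1)) +
      dl (cpy Q (slam F w)) (fun x => (N x, V x)) R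
        (fun x => ((F.ctx σ w r U P a s t x.1, ()), F.T x.1)) := by
    have a1 : dl (cpy Q (slam F w)) N (fun x => (V x, R x))
      (fun x => ((F.ctx σ w r U P a s t x.1, ()), F.T x.1)) ≤
      dl (cpy Q (slam F w)) N (fun x => (R x, V x))
      (fun x => ((F.ctx σ w r U P a s t x.1, ()), F.T x.1)) :=
      dl_mono' h0 fun x x' _ _ h => by
        have h1 := Prod.ext_iff.mp (Prod.ext_iff.mp h).1
        exact Prod.ext h1.2 h1.1
    have a2 := dl_chain h0 N R V (fun x => ((F.ctx σ w r U P a s t x.1, ()), F.T x.1))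
    have a3 := dl_chain' h0 N V R (fun x => ((F.ctx σ w r U P a s t x.1, ()), F.T x.1))
    have a4 := dl_nonneg h0 V R (fun x => ((F.ctx σ w r U P a s t x.1, ()), F.T x.1))
    linarith
  have s2 : dl (cpy Q (slam F w)) (fun x => (N x, V x)) R
        (fun x => ((F.ctx σ w r U P a s t x.1, ()), F.T x.1)) ≤
      dl (cpy Q (slam F w)) (fun x => lk F σ w r U P X a s t x.1) R
        (fun x => ((F.ctx σ w r U P a s t x.1, ()), F.T x.1)) := by
    refine dl_mono h0 fun x x' _ _ h => ?_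
    have e1 : lk F σ w r U P X a s t x.1 = lk F σ w r U P X a s t x'.1 := (Prod.ext_iff.mp h).1
    have e2 : F.T x.1 = F.T x'.1 := (Prod.ext_iff.mp (Prod.ext_iff.mp h).2).2
    have e3 : F.wt w x.1 = F.wt w x'.1 := by
      unfold Fam.wt
      rw [e2]
    have e4 : ∀ i, xv F σ w r U P X a s t i x.1 = xv F σ w r U P X a s t i x'.1 := by
      intro i
      unfold xv
      rw [yv_eq e1, ov_eq e1, e3]
    have e5 : N x = N x' := by
      rw [hN]
      unfold blk Uni.dg dgv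
      simp only [e4]
    have e6 : V x = V x' := by
      rw [hV]
      unfold Uni.dg dgv
      simp only [ov_eq (i := 0) e1, ov_eq (i := 2) e1]
    exact Prod.ext e5 e6
  have s3 : dl (cpy Q (slam F w)) (fun x => lk F σ w r U P X a s t x.1) R
        (fun x => ((F.ctx σ w r U P a s t x.1, ()), F.T x.1)) ≤ e +
      dl (cpy Q (slam F w)) (fun x => rc F r P X kk x.2) (fun x => lk F σ w r U P X a s t x.1)
        (fun x => (F.ctx σ w r U P a s t x.1, (F.T x.1, F.T x.2))) := by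
    rw [dl_symm h0]
    have a1 : dl (cpy Q (slam F w)) R (fun x => lk F σ w r U P X a s t x.1)
        (fun x => ((F.ctx σ w r U P a s t x.1, ()), F.T x.1)) ≤
        dl (cpy Q (slam F w)) (fun x => (rc F r P X kk x.2, F.T x.2))
          (fun x => lk F σ w r U P X a s t x.1)
          (fun x => ((F.ctx σ w r U P a s t x.1, ()), F.T x.1)) :=
      dl_mono h0 fun x x' _ _ h => by
        have h1 := Prod.ext_iff.mp (Prod.ext_iff.mp h).1
        rw [hR]
        exact Prod.ext h1.2 h1.1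
    have a2 := dl_chain' h0 (fun x : F.Ω × F.Ω => rc F r P X kk x.2)
      (fun x : F.Ω × F.Ω => F.T x.2) (fun x => lk F σ w r U P X a s t x.1)
      (fun x => ((F.ctx σ w r U P a s t x.1, ()), F.T x.1))
    have a3 := time2 (σ := σ) (r := r) (U := U) (P := P) (X := X) hQ hdet hw hT
    have a4 : dl (cpy Q (slam F w)) (fun x => rc F r P X kk x.2)
        (fun x => lk F σ w r U P X a s t x.1)
        (fun x => (F.T x.2, ((F.ctx σ w r U P a s t x.1, ()), F.T x.1))) =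
        dl (cpy Q (slam F w)) (fun x => rc F r P X kk x.2)
        (fun x => lk F σ w r U P X a s t x.1)
        (fun x => (F.ctx σ w r U P a s t x.1, (F.T x.1, F.T x.2))) := by
      refine dl_congr h0 _ _ ?_ ?_
      · intro x x' _ _ h
        have h1 := Prod.ext_iff.mp h
        have h2 := Prod.ext_iff.mp h1.2
        have h3 := Prod.ext_iff.mp h2.1
        exact Prod.ext h3.1 (Prod.ext h2.2 h1.1)
      · intro x x' _ _ h
        have h1 := Prod.ext_iff.mp h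
        have h2 := Prod.ext_iff.mp h1.2
        exact Prod.ext h2.2 (Prod.ext (Prod.ext h1.1 rfl) h2.1)
    linarith
  have s4 : dl (cpy Q (slam F w)) N V (fun x => ((F.ctx σ w r U P a s t x.1, ()), F.T x.1)) ≤
      dl Q (F.sbx σ (r + X) U (P + X) a s t) (vk F σ w r U P X a s t)
        (fun ω => (F.ctx σ w r U P a s t ω, F.T ω)) + 2 * Real.log 17 := by
    obtain ⟨N', hN'⟩ : ∃ N' : F.Ω → ℤ × (Fin 1 → ℤ), N' =
      fun ω => (⌊(2 : ℝ) ^ X * xv F σ w r U P X a s t 0 ω⌋,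
        (fun _ : Fin 1 => ⌊(2 : ℝ) ^ X * xv F σ w r U P X a s t 2 ω⌋)) := ⟨_, rfl⟩
    obtain ⟨V', hV'⟩ : ∃ V' : F.Ω → ℤ × (Fin 1 → ℤ), V' =
      fun ω => (⌊(2 : ℝ) ^ X * ov F σ w r U P X a s t 0 ω⌋,
        (fun _ : Fin 1 => ⌊(2 : ℝ) ^ X * ov F σ w r U P X a s t 2 ω⌋)) := ⟨_, rfl⟩
    have a1 : dl (cpy Q (slam F w)) N V (fun x => ((F.ctx σ w r U P a s t x.1, ()), F.T x.1)) =
        dl Q N' V' (fun ω => ((F.ctx σ w r U P a s t ω, ()), F.T ω)) := by
      have b1 := m1.CH N' (fun ω => ((F.ctx σ w r U P a s t ω, ()), F.T ω))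
      have b2 := m1.CH N' (fun ω => (V' ω, ((F.ctx σ w r U P a s t ω, ()), F.T ω)))
      unfold dl
      rw [← b1, ← b2, hN, hV, hN', hV']
      rfl
    have a2 : dl Q N' V' (fun ω => ((F.ctx σ w r U P a s t ω, ()), F.T ω)) =
        dl Q N' V' (fun ω => (F.ctx σ w r U P a s t ω, F.T ω)) := by
      refine dl_congr hQ.nonneg _ _ ?_ ?_
      · intro ω ω' _ _ h
        have h1 := Prod.ext_iff.mp h
        have h2 := Prod.ext_iff.mp h1.1
        exact Prod.ext h2.1 h1.2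
      · intro ω ω' _ _ h
        have h1 := Prod.ext_iff.mp h
        exact Prod.ext (Prod.ext h1.1 rfl) h1.2
    have a3 := dl_near hQ.nonneg (X := F.sbx σ (r + X) U (P + X) a s t) (X' := N') (Y := V')
      (Z := fun ω => (F.ctx σ w r U P a s t ω, F.T ω))
    have a4 : dl Q (F.sbx σ (r + X) U (P + X) a s t) V'
        (fun ω => (F.ctx σ w r U P a s t ω, F.T ω)) ≤
        dl Q (F.sbx σ (r + X) U (P + X) a s t) (vk F σ w r U P X a s t)
        (fun ω => (F.ctx σ w r U P a s t ω, F.T ω)) := by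
      refine dl_mono' hQ.nonneg fun ω ω' _ _ h => ?_
      have h1 := Prod.ext_iff.mp (Prod.ext_iff.mp h).1
      have h2 : ⌊(2 : ℝ) ^ X * F.md (vpr w r U P) (fm F σ a s t) ω 0⌋ =
        ⌊(2 : ℝ) ^ X * F.md (vpr w r U P) (fm F σ a s t) ω' 0⌋ := h1.1
      have h3 : ⌊(2 : ℝ) ^ X * F.md (vpr w r U P) (fm F σ a s t) ω 2⌋ =
        ⌊(2 : ℝ) ^ X * F.md (vpr w r U P) (fm F σ a s t) ω' 2⌋ := h1.2
      rw [hV']
      simp only [dg_ov le_rfl, h2, h3]
    have a5 : CH Q N' (fun ω => (F.sbx σ (r + X) U (P + X) a s t ω,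
        (F.ctx σ w r U P a s t ω, F.T ω))) ≤ 2 * Real.log 17 := by
      rw [hN']
      exact blk_near hQ hw hwr hrU hUP
    rw [a1, a2]
    linarith
  rw [← hN]
  have s5 : (fun x : F.Ω × F.Ω =>
      ((Uni.dg X (fun x : F.Ω × F.Ω => ov F σ w r U P X a s t 0 x.1) x,
        dgv X (fun (x : F.Ω × F.Ω) (_ : Fin 1) => ov F σ w r U P X a s t 2 x.1) x),
        (F.T x.2, rc F r P X kk x.2))) = fun x => (V x, R x) := by
    rw [hV, hR]
  rw [s5]
  linarith

/-- **(h4)** -/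
theorem hyp4 (hQ : IsLaw Q) (hdet : Fdet F Q w a s t) {n X' : ℕ} (hn : n + X' ≤ X)
    {E : F.Ω × F.Ω → Prop} {ϖ v b0 : ℝ} (hϖ : 0 < ϖ) (hE : ϖ ≤ Pe (cpy Q (slam F w)) E)
    (hlay : ∀ μ : F.Ω → ℝ, IsLaw μ → (∀ ω, μ ω ≤ 1 / ϖ * Q ω) →
      b0 ≤ CH μ (fun ω => F.D (r - w + (n + X')) ω (σ 0))
        (fun ω => (F.D (r - w + n) ω (σ 0), Fam.pt F ω)))
    (hvis : CH Q (F.ctx σ w r U P a s t) (fun ω => (F.D (r - w) ω (σ 0), Fam.pt F ω)) ≤ v) :
    b0 - v / ϖ ≤ CH (Pool.Agent.H49.Ent.cond (cpy Q (slam F w)) E True)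
      (Uni.dg (n + X') (fun x => ov F σ w r U P X a s t 0 x.1))
      (fun x => (Uni.dg n (fun x : F.Ω × F.Ω => ov F σ w r U P X a s t 0 x.1) x,
        (Fam.pt F x.2, ((F.T x.2, rc F r P X kk x.2), (F.ctx σ w r U P a s t x.1, ()))))) := by
  classical
  obtain ⟨hL, m1, m2, hpos, i1, i2⟩ := pair_facts (F := F) (w := w) hQ
  have h0 := hL.nonneg
  have hE0 : 0 < Pe (cpy Q (slam F w)) E := lt_of_lt_of_le hϖ hE
  have hc := isLaw_cond hL hE0
  have c0 := hc.nonneg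
  have cpos : ∀ x, 0 < Pool.Agent.H49.Ent.cond (cpy Q (slam F w)) E True x →
      0 < cpy Q (slam F w) x := fun x hx => ((cond_pos_iff h0 E True x).1 hx).1
  -- the marginal
  obtain ⟨μ, hμ, hμm, hμb⟩ := marg_ev hL m2 hE0
  have k1 := hlay μ hμ (fun ω => (hμb ω).trans
    (mul_le_mul_of_nonneg_right (one_div_le_one_div_of_le hϖ hE) (hQ.nonneg ω)))
  rw [← hμm.CH (fun ω => F.D (r - w + (n + X')) ω (σ 0))
    (fun ω => (F.D (r - w + n) ω (σ 0), Fam.pt F ω))] at k1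
  -- the context is visible
  have k2 : CH (Pool.Agent.H49.Ent.cond (cpy Q (slam F w)) E True)
      (fun x => F.ctx σ w r U P a s t x.2)
      (fun x => (F.D (r - w + n) x.2 (σ 0), Fam.pt F x.2)) ≤ v / ϖ := by
    have a1 : CH (Pool.Agent.H49.Ent.cond (cpy Q (slam F w)) E True)
      (fun x => F.ctx σ w r U P a s t x.2)
      (fun x => (F.D (r - w + n) x.2 (σ 0), Fam.pt F x.2)) ≤
      CH (Pool.Agent.H49.Ent.cond (cpy Q (slam F w)) E True)
      (fun x => F.ctx σ w r U P a s t x.2)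
      (fun x => (F.D (r - w) x.2 (σ 0), Fam.pt F x.2)) := by
      refine CH_mono_cond c0 fun x x' _ _ h => ?_
      have h1 := Prod.ext_iff.mp h
      have h2 : ⌊(2 : ℝ) ^ (r - w + n) * F.d x.2 (σ 0)⌋ =
        ⌊(2 : ℝ) ^ (r - w + n) * F.d x'.2 (σ 0)⌋ := h1.1
      exact Prod.ext (Vd.fl_lift (Nat.le_add_right _ _) h2) h1.2
    have a2 := CH_ev_le h0 (fun x : F.Ω × F.Ω => F.ctx σ w r U P a s t x.2)
      (fun x : F.Ω × F.Ω => (F.D (r - w) x.2 (σ 0), Fam.pt F x.2)) E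
    rw [m2.CH (F.ctx σ w r U P a s t) (fun ω => (F.D (r - w) ω (σ 0), Fam.pt F ω))] at a2
    have a3 := CH_nonneg c0 (fun x : F.Ω × F.Ω => F.ctx σ w r U P a s t x.2)
      (fun x : F.Ω × F.Ω => (F.D (r - w) x.2 (σ 0), Fam.pt F x.2))
    have a4 : ϖ * CH (Pool.Agent.H49.Ent.cond (cpy Q (slam F w)) E True)
      (fun x => F.ctx σ w r U P a s t x.2)
      (fun x => (F.D (r - w) x.2 (σ 0), Fam.pt F x.2)) ≤ v :=
      ((mul_le_mul_of_nonneg_right hE a3).trans a2).trans hvis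
    refine a1.trans ?_
    rw [le_div_iff₀ hϖ, mul_comm]
    exact a4
  have k3 := CH_le_add c0 (fun x : F.Ω × F.Ω => F.D (r - w + (n + X')) x.2 (σ 0))
    (fun x : F.Ω × F.Ω => F.ctx σ w r U P a s t x.2)
    (fun x : F.Ω × F.Ω => (F.D (r - w + n) x.2 (σ 0), Fam.pt F x.2))
  -- the dictionary
  have key : ∀ x, 0 < Pool.Agent.H49.Ent.cond (cpy Q (slam F w)) E True x →
      F.ctx σ w r U P a s t x.1 = F.ctx σ w r U P a s t x.2 ∧
      ∀ m ≤ X, ⌊(2 : ℝ) ^ m * ov F σ w r U P X a s t 0 x.1⌋ =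
        F.D (r - w + m) x.2 (σ 0) - 2 ^ m * F.mvl (vpr w r U P) (fm F σ a s t) x.2 0 := by
    intro x hx
    obtain ⟨q1, q2, q3⟩ := hpos x (cpos x hx)
    obtain ⟨g1, g2, g3⟩ := place_slam (σ := σ) (r := r) (U := U) (P := P) hdet q1 q2 q3
    refine ⟨g1, fun m hm => ?_⟩
    rw [dg_ov hm, g3, D_md (U := U) (P := P) (a := a) (s := s) (t := t)]
    ring
  have mv : ∀ x x' : F.Ω, F.ctx σ w r U P a s t x = F.ctx σ w r U P a s t x' →
      F.mvl (vpr w r U P) (fm F σ a s t) x = F.mvl (vpr w r U P) (fm F σ a s t) x' :=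
    fun x x' h => (Box.mlb_ext (F := F) (g := w) (k := fun i => vpr w r U P i + w)
      (c := vpr w r U P) (M := fm F σ a s t) h).2.2.2.1
  have k4 : CH (Pool.Agent.H49.Ent.cond (cpy Q (slam F w)) E True)
      (fun x => F.D (r - w + (n + X')) x.2 (σ 0))
      (fun x => (F.ctx σ w r U P a s t x.2, (F.D (r - w + n) x.2 (σ 0), Fam.pt F x.2))) ≤
      CH (Pool.Agent.H49.Ent.cond (cpy Q (slam F w)) E True)
      (Uni.dg (n + X') (fun x => ov F σ w r U P X a s t 0 x.1))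
      (fun x => (Uni.dg n (fun x : F.Ω × F.Ω => ov F σ w r U P X a s t 0 x.1) x,
        (Fam.pt F x.2, ((F.T x.2, rc F r P X kk x.2), (F.ctx σ w r U P a s t x.1, ()))))) := by
    refine (CH_mono_left c0 (X' := Uni.dg (n + X') (fun x => ov F σ w r U P X a s t 0 x.1))
      fun x x' hx hx' h => ?_).trans (CH_mono_cond c0 fun x x' hx hx' h => ?_)
    · have h1 := Prod.ext_iff.mp h
      have h2 : ⌊(2 : ℝ) ^ (n + X') * ov F σ w r U P X a s t 0 x.1⌋ =
        ⌊(2 : ℝ) ^ (n + X') * ov F σ w r U P X a s t 0 x'.1⌋ := h1.1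
      have h3 : F.ctx σ w r U P a s t x.2 = F.ctx σ w r U P a s t x'.2 :=
        (Prod.ext_iff.mp h1.2).1
      rw [(key x hx).2 _ hn, (key x' hx').2 _ hn, mv _ _ h3] at h2
      show F.D (r - w + (n + X')) x.2 (σ 0) = F.D (r - w + (n + X')) x'.2 (σ 0)
      linarith
    · have h1 := Prod.ext_iff.mp h
      have h2 := Prod.ext_iff.mp h1.2
      have h3 : F.ctx σ w r U P a s t x.2 = F.ctx σ w r U P a s t x'.2 := h1.1
      have h4 : F.D (r - w + n) x.2 (σ 0) = F.D (r - w + n) x'.2 (σ 0) := h2.1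
      have h5 : Fam.pt F x.2 = Fam.pt F x'.2 := h2.2
      have h6 : F.T x.2 = F.T x'.2 := (Prod.ext_iff.mp (Prod.ext_iff.mp h5).2).1
      have h7 : Uni.dg n (fun x : F.Ω × F.Ω => ov F σ w r U P X a s t 0 x.1) x =
          Uni.dg n (fun x : F.Ω × F.Ω => ov F σ w r U P X a s t 0 x.1) x' := by
        show ⌊(2 : ℝ) ^ n * ov F σ w r U P X a s t 0 x.1⌋ =
          ⌊(2 : ℝ) ^ n * ov F σ w r U P X a s t 0 x'.1⌋
        rw [(key x hx).2 _ (by omega), (key x' hx').2 _ (by omega), mv _ _ h3, h4]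
      have h8 : rc F r P X kk x.2 = rc F r P X kk x'.2 := by
        unfold rc
        rw [h5]
      have h9 : F.ctx σ w r U P a s t x.1 = F.ctx σ w r U P a s t x'.1 := by
        rw [(key x hx).1, (key x' hx').1, h3]
      rw [h7, h5, h6, h8, h9]
  linarith

end Pool.RPL
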