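import Pool.Agent.H45.RPL.Dict

/-!
# The plateau of the thickness: the data of theorem PLV
-/

set_option autoImplicit false

namespace Pool.RPL

open Finset Real
open Pool.Agent.H49.Ent Pool.Agent.H32.Dense Pool.STK Pool.KA Pool.KSAT Pool.K2S Pool.PLV

variable {J : ℕ} {F : Fam 3 J} {Q : F.Ω → ℝ} {σ : Fin 3 → Fin 3} {w r U P X : ℕ}
  {a s t : F.Ω → ℝ} {kk bb : (Fin 3 → ℤ) × (ℕ × F.ζ) → ℝ} {B : ℝ}

/-- The slope of the normal at the second time. -/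
theorem rc_near (ω : F.Ω) : |(rc F r P X kk ω : ℝ) / 2 ^ X - 2 ^ (P - r) * kk (Fam.pt F ω)| *
    2 ^ X ≤ 1 := fl_near' _ X

theorem kk_scaled {ω : F.Ω} (h : |kk (Fam.pt F ω)| ≤ B / 2 ^ (P - r)) :
    |2 ^ (P - r) * kk (Fam.pt F ω)| ≤ B := by
  rw [abs_mul, abs_of_pos (by positivity : (0 : ℝ) < 2 ^ (P - r))]
  calc (2 : ℝ) ^ (P - r) * |kk (Fam.pt F ω)| ≤ 2 ^ (P - r) * (B / 2 ^ (P - r)) :=
        mul_le_mul_of_nonneg_left h (by positivity)
    _ = B := by field_simp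

theorem rc_le {ω : F.Ω} (h : |kk (Fam.pt F ω)| ≤ B / 2 ^ (P - r)) :
    |(rc F r P X kk ω : ℝ) / 2 ^ X| ≤ B + 1 := by
  have h1 := kk_scaled h
  have h2 := rc_near (r := r) (P := P) (X := X) (kk := kk) ω
  have h3 : (1 : ℝ) ≤ 2 ^ X := one_le_pow₀ (by norm_num)
  have h4 := abs_nonneg ((rc F r P X kk ω : ℝ) / 2 ^ X - 2 ^ (P - r) * kk (Fam.pt F ω))
  have h5 : |(rc F r P X kk ω : ℝ) / 2 ^ X - 2 ^ (P - r) * kk (Fam.pt F ω)| ≤ 1 := by nlinarith only [h2, h3, h4]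
  have h6 := abs_add_le ((rc F r P X kk ω : ℝ) / 2 ^ X - 2 ^ (P - r) * kk (Fam.pt F ω))
    (2 ^ (P - r) * kk (Fam.pt F ω))
  rw [sub_add_cancel] at h6
  linarith only [h1, h5, h6]

/-- The velocity of the normal coordinate at an exact point. -/
theorem be_near {ω : F.Ω} (hwr : w ≤ r) (hrU : r ≤ U) (hUP : U ≤ P)
    (hstr : |F.d ω (σ 2) - s ω * F.d ω (σ 1) - t ω * F.d ω (σ 0) - bb (Fam.pt F ω) -
      kk (Fam.pt F ω) * F.d ω (σ 0)| ≤ B / 2 ^ (P + X - w))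
    (hk : |kk (Fam.pt F ω)| ≤ B / 2 ^ (P - r)) :
    |ov F σ w r U P X a s t 2 ω - (rc F r P X kk ω : ℝ) / 2 ^ X * ov F σ w r U P X a s t 0 ω -
      (2 ^ (P - w) * bb (Fam.pt F ω) + 2 ^ (P - r) * kk (Fam.pt F ω) *
        F.mvl (vpr w r U P) (fm F σ a s t) ω 0 - F.mvl (vpr w r U P) (fm F σ a s t) ω 2)| *
      2 ^ X ≤ 2 * B + 2 := by
  have h2 : (0 : ℝ) < 2 ^ X := by positivity
  have hS := kk_scaled (P := P) (r := r) hk
  have hB : 0 ≤ B := (abs_nonneg _).trans hS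
  have k0 := fl_near' (F.md (vpr w r U P) (fm F σ a s t) ω 0) X
  have k2 := fl_near' (F.md (vpr w r U P) (fm F σ a s t) ω 2) X
  have kr := rc_near (r := r) (P := P) (X := X) (kk := kk) ω
  have m0 := Box.mvl_add F (vpr w r U P) (fm F σ a s t) ω 0
  have m2 := Box.mvl_add F (vpr w r U P) (fm F σ a s t) ω 2
  have c0 : mco (fm F σ a s t ω) (F.d ω) 0 = F.d ω (σ 0) := Box.mco_tfr0 _ _ _ _ _
  have c2 : mco (fm F σ a s t ω) (F.d ω) 2 = F.d ω (σ 2) - s ω * F.d ω (σ 1) -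
      t ω * F.d ω (σ 0) := Box.mco_tfr2 _ _ _ _ _
  have e0 : vpr w r U P 0 = r - w := rfl
  have e2 : vpr w r U P 2 = P - w := rfl
  rw [c0, e0] at m0
  rw [c2, e2] at m2
  have ep : (2 : ℝ) ^ (P - w) = 2 ^ (P - r) * 2 ^ (r - w) := by
    rw [← pow_add]
    congr 1
    omega
  obtain ⟨o2, ho2⟩ : ∃ o2, o2 = ov F σ w r U P X a s t 2 ω := ⟨_, rfl⟩
  obtain ⟨o0, ho0⟩ : ∃ o0, o0 = ov F σ w r U P X a s t 0 ω := ⟨_, rfl⟩
  obtain ⟨d0, hd0⟩ : ∃ d0, d0 = F.md (vpr w r U P) (fm F σ a s t) ω 0 := ⟨_, rfl⟩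
  obtain ⟨d2, hd2⟩ : ∃ d2, d2 = F.md (vpr w r U P) (fm F σ a s t) ω 2 := ⟨_, rfl⟩
  obtain ⟨R, hR⟩ : ∃ R : ℝ, R = (rc F r P X kk ω : ℝ) / 2 ^ X := ⟨_, rfl⟩
  obtain ⟨S, hSd⟩ : ∃ S : ℝ, S = 2 ^ (P - r) * kk (Fam.pt F ω) := ⟨_, rfl⟩
  have k0' : |o0 - d0| * 2 ^ X ≤ 1 := by rw [ho0, hd0]; exact k0
  have k2' : |o2 - d2| * 2 ^ X ≤ 1 := by rw [ho2, hd2]; exact k2
  have kr' : |R - S| * 2 ^ X ≤ 1 := by rw [hR, hSd]; exact kr
  have hS' : |S| ≤ B := by rw [hSd]; exact hS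
  have ho0' : |o0| ≤ 1 := by
    obtain ⟨g1, g2⟩ := ov_mem (F := F) (σ := σ) (w := w) (r := r) (U := U) (P := P) (X := X)
      (a := a) (s := s) (t := t) 0 ω
    rw [ho0, abs_le]
    constructor <;> linarith
  rw [← ho2, ← ho0, ← hR, ← hSd]
  obtain ⟨E, hE⟩ : ∃ E : ℝ, E = F.d ω (σ 2) - s ω * F.d ω (σ 1) - t ω * F.d ω (σ 0) -
    bb (Fam.pt F ω) - kk (Fam.pt F ω) * F.d ω (σ 0) := ⟨_, rfl⟩
  rw [← hE] at hstr
  rw [← hd0] at m0
  rw [← hd2] at m2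
  have key : o2 - R * o0 - (2 ^ (P - w) * bb (Fam.pt F ω) + S *
        F.mvl (vpr w r U P) (fm F σ a s t) ω 0 - F.mvl (vpr w r U P) (fm F σ a s t) ω 2) =
      (o2 - d2) - S * (o0 - d0) - (R - S) * o0 + 2 ^ (P - w) * E := by
    have h1 : S * (2 ^ (r - w) * F.d ω (σ 0)) = 2 ^ (P - w) * (kk (Fam.pt F ω) * F.d ω (σ 0)) := by
      rw [hSd, ep]
      ring
    rw [m0] at h1
    rw [hE]
    linear_combination -m2 - h1
  rw [key]
  have t1 := abs_add_le ((o2 - d2) - S * (o0 - d0) - (R - S) * o0) (2 ^ (P - w) * E)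
  have t2 := abs_sub ((o2 - d2) - S * (o0 - d0)) ((R - S) * o0)
  have t3 := abs_sub (o2 - d2) (S * (o0 - d0))
  have g1 : |S * (o0 - d0)| * 2 ^ X ≤ B := by
    rw [abs_mul, mul_assoc]
    calc |S| * (|o0 - d0| * 2 ^ X) ≤ B * 1 := mul_le_mul hS' k0' (by positivity) hB
      _ = B := mul_one B
  have g2 : |(R - S) * o0| * 2 ^ X ≤ 1 := by
    rw [abs_mul]
    have : |R - S| * |o0| * 2 ^ X = (|R - S| * 2 ^ X) * |o0| := by ring
    rw [this]
    calc (|R - S| * 2 ^ X) * |o0| ≤ 1 * 1 := mul_le_mul kr' ho0' (abs_nonneg _) zero_le_one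
      _ = 1 := one_mul 1
  have g3 : |2 ^ (P - w) * E| * 2 ^ X ≤ B := by
    rw [abs_mul, abs_of_pos (by positivity : (0 : ℝ) < 2 ^ (P - w))]
    have e3 : (2 : ℝ) ^ (P + X - w) = 2 ^ (P - w) * 2 ^ X := by
      rw [← pow_add]
      congr 1
      omega
    rw [e3] at hstr
    have : (2 : ℝ) ^ (P - w) * |E| * 2 ^ X = 2 ^ (P - w) * 2 ^ X * |E| := by ring
    rw [this]
    calc (2 : ℝ) ^ (P - w) * 2 ^ X * |E| ≤ 2 ^ (P - w) * 2 ^ X * (B / (2 ^ (P - w) * 2 ^ X)) :=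
          mul_le_mul_of_nonneg_left hstr (by positivity)
      _ = B := by field_simp
  nlinarith only [k2', g1, g2, g3, t1, h2, t2, t3, mul_le_mul_of_nonneg_right t1 h2.le, mul_le_mul_of_nonneg_right t2 h2.le,
    mul_le_mul_of_nonneg_right t3 h2.le]

/-- **The data of theorem PLV.** -/
theorem pvdata (hQ : IsLaw Q) (hdet : Fdet F Q w a s t) (hw : w ≤ J) (hwr : w ≤ r)
    (hrU : r ≤ U) (hUP : U ≤ P) (hPX : P + X ≤ J)
    (hb : ∀ ω, 0 < Q ω → |a ω| ≤ B ∧ |s ω| ≤ B ∧ |t ω| ≤ B)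
    (hstr : ∀ ω, 0 < Q ω → |F.d ω (σ 2) - s ω * F.d ω (σ 1) - t ω * F.d ω (σ 0) -
      bb (Fam.pt F ω) - kk (Fam.pt F ω) * F.d ω (σ 0)| ≤ B / 2 ^ (P + X - w))
    (hk : ∀ ω, 0 < Q ω → |kk (Fam.pt F ω)| ≤ B / 2 ^ (P - r)) (hB : 0 ≤ B) :
    PVData 1 (2 * B + 4) (cpy Q (slam F w)) (fun x => F.ctx σ w r U P a s t x.1)
      (fun _ => ()) (fun x => lk F σ w r U P X a s t x.1) (fun x => F.T x.1)
      (fun x => (F.T x.2, rc F r P X kk x.2)) (fun x => Fam.pt F x.2)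
      (fun x => yv F σ w r U P X a s t 0 x.1) (fun x => ov F σ w r U P X a s t 0 x.1)
      (fun x _ => yv F σ w r U P X a s t 2 x.1) (fun x _ => ov F σ w r U P X a s t 2 x.1)
      (fun x => F.wt w x.1) (fun x => F.wt w x.2) (fun x _ => (rc F r P X kk x.2 : ℝ) / 2 ^ X)
      (fun x => xv F σ w r U P X a s t 0 x.1) (fun x _ => xv F σ w r U P X a s t 2 x.1) X := by
  obtain ⟨hL, -, -, -, hpos, -⟩ := cpy_thm F.Ω _ Q hQ (slam F w)
  have hwt : ∀ {ω ω' : F.Ω}, F.T ω = F.T ω' → F.wt w ω = F.wt w ω' := by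
    intro ω ω' h
    unfold Fam.wt
    rw [h]
  have key : ∀ x, 0 < cpy Q (slam F w) x →
      F.ctx σ w r U P a s t x.1 = F.ctx σ w r U P a s t x.2 ∧
      (∀ i, yv F σ w r U P X a s t i x.1 = yv F σ w r U P X a s t i x.2) ∧
      (∀ i, ov F σ w r U P X a s t i x.1 = ov F σ w r U P X a s t i x.2) := by
    intro x hx
    obtain ⟨q1, q2, q3⟩ := hpos x hx
    obtain ⟨k1, k2, k3⟩ := place_slam (σ := σ) (r := r) (U := U) (P := P) hdet q1 q2 q3
    refine ⟨k1, fun i => ?_, fun i => ?_⟩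
    · unfold yv
      rw [k2]
    · unfold ov
      rw [k3]
  have ybd : ∀ x : F.Ω × F.Ω, |xv F σ w r U P X a s t 0 x.1| ≤ 2 * B + 4 := by
    intro x
    have h1 := yv_mem (F := F) (σ := σ) (w := w) (r := r) (U := U) (P := P) (X := X) (a := a)
      (s := s) (t := t) 0 x.1
    have h2 := ov_mem (F := F) (σ := σ) (w := w) (r := r) (U := U) (P := P) (X := X) (a := a)
      (s := s) (t := t) 0 x.1
    have h3 := Lab.wt_mem F w x.1
    have h4 : F.wt w x.1 * ov F σ w r U P X a s t 0 x.1 ≤ 1 * 1 :=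
      mul_le_mul h3.2.le h2.2.le h2.1 zero_le_one
    have h5 : 0 ≤ F.wt w x.1 * ov F σ w r U P X a s t 0 x.1 := mul_nonneg h3.1 h2.1
    unfold xv
    rw [abs_le]
    constructor <;> linarith
  refine ⟨hL, ?_, ?_, ?_, ?_, ?_, ?_, ?_, ?_, ?_, ?_, ?_, ?_, ?_, ?_, ?_⟩
  · intro x x' _ _ h
    exact yv_eq (Prod.ext_iff.mp h).2
  · intro x x' _ _ h
    exact ov_eq (Prod.ext_iff.mp h).2
  · intro x x' _ _ h
    funext _
    exact yv_eq (Prod.ext_iff.mp h).2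
  · intro x x' _ _ h
    funext _
    exact ov_eq (Prod.ext_iff.mp h).2
  · intro x x' _ _ h
    exact hwt (Prod.ext_iff.mp h).2
  · intro x x' _ _ h
    exact hwt (Prod.ext_iff.mp (Prod.ext_iff.mp h).2).1
  · intro x x' _ _ h
    have h1 : rc F r P X kk x.2 = rc F r P X kk x'.2 :=
      (Prod.ext_iff.mp (Prod.ext_iff.mp h).2).2
    simp only [h1]
  · intro x _
    exact ov_mem 0 x.1
  · intro x _
    exact Lab.wt_mem F w x.1
  · intro x _
    have h3 := Lab.wt_mem F w x.2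
    rw [abs_of_nonneg h3.1]
    exact h3.2.le
  · intro x hx _
    have := rc_le (X := X) (hk x.2 (hpos x hx).2.1)
    linarith only [hB, this]
  · intro x _
    exact ybd x
  · refine ⟨fun _ => 0, fun _ _ _ _ _ => rfl, fun x _ => ?_⟩
    show xv F σ w r U P X a s t 0 x.1 = _
    unfold xv
    ring
  · refine ⟨fun _ _ => 0, fun _ _ _ _ _ => rfl, fun x _ _ => ?_⟩
    show xv F σ w r U P X a s t 2 x.1 = _
    unfold xv
    ring
  · refine ⟨fun x => 2 ^ (vpr w r U P 0 + w) * mco (fm F σ a s t x.2) (xJ (Fam.pt F x.2)) 0 -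
        F.mkn w (vpr w r U P) (fm F σ a s t) x.2 0,
      fun x _ => 2 ^ (vpr w r U P 2 + w) * mco (fm F σ a s t x.2) (xJ (Fam.pt F x.2)) 2 -
        F.mkn w (vpr w r U P) (fm F σ a s t) x.2 2,
      fun x _ => 2 ^ (P - w) * bb (Fam.pt F x.2) + 2 ^ (P - r) * kk (Fam.pt F x.2) *
        F.mvl (vpr w r U P) (fm F σ a s t) x.2 0 - F.mvl (vpr w r U P) (fm F σ a s t) x.2 2,
      ?_, ?_⟩
    · intro x x' hx hx' h
      have h1 := Prod.ext_iff.mp h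
      have h2 := Prod.ext_iff.mp h1.2
      have h3 := Prod.ext_iff.mp h2.1
      have h4 := Prod.ext_iff.mp h2.2
      have ept : Fam.pt F x.2 = Fam.pt F x'.2 := h1.1
      have eT : F.T x.2 = F.T x'.2 := h3.1
      have ec0 : F.ctx σ w r U P a s t x.1 = F.ctx σ w r U P a s t x'.1 := h4.1
      have ec : F.ctx σ w r U P a s t x.2 = F.ctx σ w r U P a s t x'.2 := by
        rw [← (key x hx).1, ← (key x' hx').1]
        exact ec0
      obtain ⟨m1, m2, m3, m4, m5⟩ := Box.mlb_ext (F := F) (g := w)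
        (k := fun i => vpr w r U P i + w) (c := vpr w r U P) (M := fm F σ a s t) ec
      have mk : F.mkn w (vpr w r U P) (fm F σ a s t) x.2 =
          F.mkn w (vpr w r U P) (fm F σ a s t) x'.2 :=
        Box.mkn_det (F := F) (w := w) (c := vpr w r U P) (M := fm F σ a s t) ec eT
      simp only
      rw [ept, m2, mk, m4]
    · intro x hx
      obtain ⟨q1, q2, q3⟩ := hpos x hx
      obtain ⟨k1, k2, k3⟩ := key x hx
      have n := xv_near (σ := σ) hw hwr hrU hUP hPX (hb x.2 q2)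
      refine ⟨?_, fun _ => ?_, fun _ => ?_⟩
      · rw [k2, k3]
        have := n 0
        simp only
        linarith only [this]
      · simp only
        rw [k2, k3]
        have := n 2
        linarith only [this]
      · simp only
        rw [k3, k3]
        have := be_near (σ := σ) (a := a) hwr hrU hUP (hstr x.2 q2) (hk x.2 q2)
        linarith only [this]

end Pool.RPL
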