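import Pool.Agent.H45.RPL.Stmt
import Pool.Agent.H46.S6.PlvF
import Pool.Agent.H20.K2.CPY
import Pool.Agent.H97.S6.H1R

/-!
# The plateau of the thickness: the dictionary

The samples are pairs: a line with its own time, and a second time on the same line and window.
-/

set_option autoImplicit false

namespace Pool.RPL

open Finset Real
open Pool.Agent.H49.Ent Pool.Agent.H32.Dense Pool.STK Pool.KA Pool.KSAT Pool.K2S Pool.PLV

variable {J : ℕ}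

section defs

variable (F : Fam 3 J) (σ : Fin 3 → Fin 3) (w r U P X : ℕ) (a s t : F.Ω → ℝ)

/-- The frame. -/
def fm (ω : F.Ω) : Fin 3 → Fin 3 → ℝ := tfr σ (a ω) (s ω) (t ω)

/-- The position of the line. -/
noncomputable def yv (i : Fin 3) (ω : F.Ω) : ℝ :=
  ⌊(2 : ℝ) ^ X * F.mu w (fun i => vpr w r U P i + w) (fm F σ a s t) ω i⌋ / 2 ^ X

/-- The velocity of the line. -/
noncomputable def ov (i : Fin 3) (ω : F.Ω) : ℝ :=
  ⌊(2 : ℝ) ^ X * F.md (vpr w r U P) (fm F σ a s t) ω i⌋ / 2 ^ X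

/-- The position at the own time. -/
noncomputable def xv (i : Fin 3) (ω : F.Ω) : ℝ :=
  yv F σ w r U P X a s t i ω + F.wt w ω * ov F σ w r U P X a s t i ω

/-- The digits of the line. -/
noncomputable def lk (ω : F.Ω) : (Fin 3 → ℤ) × (Fin 3 → ℤ) :=
  (fun i => ⌊(2 : ℝ) ^ X * F.mu w (fun i => vpr w r U P i + w) (fm F σ a s t) ω i⌋,
    fun i => ⌊(2 : ℝ) ^ X * F.md (vpr w r U P) (fm F σ a s t) ω i⌋)

/-- The turning of the normal, `X` digits. -/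
noncomputable def rc (kk : (Fin 3 → ℤ) × (ℕ × F.ζ) → ℝ) (ω : F.Ω) : ℤ :=
  ⌊(2 : ℝ) ^ X * (2 ^ (P - r) * kk (Fam.pt F ω))⌋

end defs

theorem fl_mem {x : ℝ} (h0 : 0 ≤ x) (h1 : x < 1) (X : ℕ) :
    0 ≤ (⌊(2 : ℝ) ^ X * x⌋ : ℝ) / 2 ^ X ∧ (⌊(2 : ℝ) ^ X * x⌋ : ℝ) / 2 ^ X < 1 := by
  have h2 : (0 : ℝ) < 2 ^ X := by positivity
  refine ⟨div_nonneg (by exact_mod_cast Int.floor_nonneg.2 (by positivity)) h2.le, ?_⟩
  rw [div_lt_one h2]
  refine (Int.floor_le _).trans_lt ?_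
  nlinarith

theorem fl_near (x : ℝ) (X : ℕ) : |(⌊(2 : ℝ) ^ X * x⌋ : ℝ) / 2 ^ X - x| ≤ 1 / 2 ^ X := by
  have h2 : (0 : ℝ) < 2 ^ X := by positivity
  have e1 : (⌊(2 : ℝ) ^ X * x⌋ : ℝ) / 2 ^ X - x = (⌊(2 : ℝ) ^ X * x⌋ - 2 ^ X * x) / 2 ^ X := by
    field_simp
  rw [e1, abs_div, abs_of_pos h2]
  refine div_le_div_of_nonneg_right ?_ h2.le
  rw [abs_le]
  have h3 := Int.floor_le ((2 : ℝ) ^ X * x)
  have h4 := Int.lt_floor_add_one ((2 : ℝ) ^ X * x)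
  constructor <;> linarith

theorem fl_near' (x : ℝ) (X : ℕ) : |(⌊(2 : ℝ) ^ X * x⌋ : ℝ) / 2 ^ X - x| * 2 ^ X ≤ 1 := by
  have h := fl_near x X
  rwa [le_div_iff₀ (by positivity)] at h

section place

variable {F : Fam 3 J} {σ : Fin 3 → Fin 3} {w r U P X : ℕ} {a s t : F.Ω → ℝ}

theorem yv_mem (i : Fin 3) (ω : F.Ω) : 0 ≤ yv F σ w r U P X a s t i ω ∧
    yv F σ w r U P X a s t i ω < 1 := by
  obtain ⟨h0, h1⟩ := Box.mu_mem F w (fun i => vpr w r U P i + w) (fm F σ a s t) ω i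
  exact fl_mem h0 h1 X

theorem ov_mem (i : Fin 3) (ω : F.Ω) : 0 ≤ ov F σ w r U P X a s t i ω ∧
    ov F σ w r U P X a s t i ω < 1 := by
  obtain ⟨h0, h1⟩ := Box.md_mem F (vpr w r U P) (fm F σ a s t) ω i
  exact fl_mem h0 h1 X

/-- The frame is a function of the line and the window. -/
def Fdet (F : Fam 3 J) (Q : F.Ω → ℝ) (w : ℕ) (a s t : F.Ω → ℝ) : Prop :=
  Det Q (slam F w) (fun ω => (a ω, s ω, t ω))

theorem Fdet.eq {Q : F.Ω → ℝ} (h : Fdet F Q w a s t) {ω ω' : F.Ω} (hω : 0 < Q ω) (hω' : 0 < Q ω')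
    (e : slam F w ω = slam F w ω') : a ω = a ω' ∧ s ω = s ω' ∧ t ω = t ω' := by
  have h1 := Prod.ext_iff.mp (h ω ω' hω hω' e)
  have h2 := Prod.ext_iff.mp h1.2
  exact ⟨h1.1, h2.1, h2.2⟩

/-- The line in the context is a function of the line and the window. -/
theorem place_slam {Q : F.Ω → ℝ} (h : Fdet F Q w a s t) {ω ω' : F.Ω} (hω : 0 < Q ω)
    (hω' : 0 < Q ω') (e : slam F w ω = slam F w ω') :
    F.ctx σ w r U P a s t ω = F.ctx σ w r U P a s t ω' ∧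
      F.mu w (fun i => vpr w r U P i + w) (fm F σ a s t) ω =
        F.mu w (fun i => vpr w r U P i + w) (fm F σ a s t) ω' ∧
      F.md (vpr w r U P) (fm F σ a s t) ω = F.md (vpr w r U P) (fm F σ a s t) ω' := by
  obtain ⟨h1, h2, h3⟩ := h.eq hω hω' e
  have e1 : F.l ω = F.l ω' := (Prod.ext_iff.mp e).1
  have e2 := Prod.ext_iff.mp (Prod.ext_iff.mp e).2
  refine Box.label_det F (g := w) (k := fun i => vpr w r U P i + w) (c := vpr w r U P)
    (M := fm F σ a s t) e1 e2.2 ?_ e2.1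
  unfold fm
  rw [h1, h2, h3]

theorem yv_eq {ω ω' : F.Ω} {i : Fin 3} (e : lk F σ w r U P X a s t ω = lk F σ w r U P X a s t ω') :
    yv F σ w r U P X a s t i ω = yv F σ w r U P X a s t i ω' := by
  have h1 := congrFun (Prod.ext_iff.mp e).1 i
  simp only [lk] at h1
  unfold yv
  rw [h1]

theorem ov_eq {ω ω' : F.Ω} {i : Fin 3} (e : lk F σ w r U P X a s t ω = lk F σ w r U P X a s t ω') :
    ov F σ w r U P X a s t i ω = ov F σ w r U P X a s t i ω' := by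
  have h1 := congrFun (Prod.ext_iff.mp e).2 i
  simp only [lk] at h1
  unfold ov
  rw [h1]

/-- The exact point at the resolution of the family. -/
noncomputable def xJ (p : (Fin 3 → ℤ) × (ℕ × F.ζ)) (i : Fin 3) : ℝ := (p.1 i : ℝ) / 2 ^ J

theorem xJ_near (ω : F.Ω) (i : Fin 3) : |F.x ω i - xJ (Fam.pt F ω) i| ≤ 1 / 2 ^ J := by
  rw [abs_sub_comm]
  exact fl_near (F.x ω i) J

/-- The rows of the rounded position. -/
theorem row_near {B : ℝ} {ω : F.Ω} (hb : |a ω| ≤ B ∧ |s ω| ≤ B ∧ |t ω| ≤ B) (i : Fin 3) :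
    |mco (fm F σ a s t ω) (F.x ω) i - mco (fm F σ a s t ω) (xJ (Fam.pt F ω)) i| ≤
      (1 + 2 * B) / 2 ^ J := by
  have hB : 0 ≤ B := (abs_nonneg _).trans hb.1
  have n : ∀ j, |F.x ω j - xJ (Fam.pt F ω) j| ≤ 1 / 2 ^ J := xJ_near ω
  have m1 : ∀ (z : ℝ) j, |z| ≤ B → |z * (F.x ω j - xJ (Fam.pt F ω) j)| ≤ B / 2 ^ J := by
    intro z j hz
    rw [abs_mul, div_eq_mul_one_div B]
    exact mul_le_mul hz (n j) (abs_nonneg _) hB
  have e2 : (1 + 2 * B) / (2 : ℝ) ^ J = 1 / 2 ^ J + B / 2 ^ J + B / 2 ^ J := by ring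
  have e3 : 0 ≤ B / (2 : ℝ) ^ J := by positivity
  rw [e2]
  fin_cases i
  · change |mco (tfr σ (a ω) (s ω) (t ω)) (F.x ω) 0 - mco (tfr σ (a ω) (s ω) (t ω)) _ 0| ≤ _
    rw [Box.mco_tfr0, Box.mco_tfr0]
    linarith [n (σ 0)]
  · change |mco (tfr σ (a ω) (s ω) (t ω)) (F.x ω) 1 - mco (tfr σ (a ω) (s ω) (t ω)) _ 1| ≤ _
    rw [Box.mco_tfr1, Box.mco_tfr1]
    have e : F.x ω (σ 1) - a ω * F.x ω (σ 0) -
        (xJ (Fam.pt F ω) (σ 1) - a ω * xJ (Fam.pt F ω) (σ 0)) =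
        (F.x ω (σ 1) - xJ (Fam.pt F ω) (σ 1)) - a ω * (F.x ω (σ 0) - xJ (Fam.pt F ω) (σ 0)) := by
      ring
    rw [e]
    refine (abs_sub _ _).trans ?_
    linarith [n (σ 1), m1 (a ω) (σ 0) hb.1]
  · change |mco (tfr σ (a ω) (s ω) (t ω)) (F.x ω) 2 - mco (tfr σ (a ω) (s ω) (t ω)) _ 2| ≤ _
    rw [Box.mco_tfr2, Box.mco_tfr2]
    have e : F.x ω (σ 2) - s ω * F.x ω (σ 1) - t ω * F.x ω (σ 0) -
        (xJ (Fam.pt F ω) (σ 2) - s ω * xJ (Fam.pt F ω) (σ 1) - t ω * xJ (Fam.pt F ω) (σ 0)) =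
        (F.x ω (σ 2) - xJ (Fam.pt F ω) (σ 2)) - s ω * (F.x ω (σ 1) - xJ (Fam.pt F ω) (σ 1)) -
          t ω * (F.x ω (σ 0) - xJ (Fam.pt F ω) (σ 0)) := by
      ring
    rw [e]
    refine (abs_sub _ _).trans ?_
    have := (abs_sub (F.x ω (σ 2) - xJ (Fam.pt F ω) (σ 2))
      (s ω * (F.x ω (σ 1) - xJ (Fam.pt F ω) (σ 1))))
    linarith [n (σ 2), m1 (s ω) (σ 1) hb.2.1, m1 (t ω) (σ 0) hb.2.2]

/-- The position at the own time is visible. -/
theorem xv_near {B : ℝ} {ω : F.Ω} (hw : w ≤ J) (hwr : w ≤ r) (hrU : r ≤ U) (hUP : U ≤ P)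
    (hPX : P + X ≤ J) (hb : |a ω| ≤ B ∧ |s ω| ≤ B ∧ |t ω| ≤ B) (i : Fin 3) :
    |yv F σ w r U P X a s t i ω + F.wt w ω * ov F σ w r U P X a s t i ω -
      (2 ^ (vpr w r U P i + w) * mco (fm F σ a s t ω) (xJ (Fam.pt F ω)) i -
        F.mkn w (vpr w r U P) (fm F σ a s t) ω i)| * 2 ^ X ≤ 3 + 2 * B := by
  have hB : 0 ≤ B := (abs_nonneg _).trans hb.1
  have h2 : (0 : ℝ) < 2 ^ X := by positivity
  have hwt := Lab.wt_mem F w ω
  have k1 := fl_near' (F.mu w (fun i => vpr w r U P i + w) (fm F σ a s t) ω i) X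
  have k2 := fl_near' (F.md (vpr w r U P) (fm F σ a s t) ω i) X
  have k3 := Box.pos_eq F hw (vpr w r U P) (fm F σ a s t) ω i
  have k4 := row_near (σ := σ) hb i
  have e1 : yv F σ w r U P X a s t i ω + F.wt w ω * ov F σ w r U P X a s t i ω -
      (2 ^ (vpr w r U P i + w) * mco (fm F σ a s t ω) (xJ (Fam.pt F ω)) i -
        F.mkn w (vpr w r U P) (fm F σ a s t) ω i) =
      (yv F σ w r U P X a s t i ω - F.mu w (fun i => vpr w r U P i + w) (fm F σ a s t) ω i) +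
      F.wt w ω * (ov F σ w r U P X a s t i ω - F.md (vpr w r U P) (fm F σ a s t) ω i) +
      2 ^ (vpr w r U P i + w) * (mco (fm F σ a s t ω) (F.x ω) i -
        mco (fm F σ a s t ω) (xJ (Fam.pt F ω)) i) := by
    have : F.mx w (vpr w r U P) (fm F σ a s t) ω i =
      F.mu w (fun i => vpr w r U P i + w) (fm F σ a s t) ω i +
        F.wt w ω * F.md (vpr w r U P) (fm F σ a s t) ω i := rfl
    rw [this] at k3
    linear_combination -k3
  rw [e1]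
  have g1 : |F.wt w ω * (ov F σ w r U P X a s t i ω - F.md (vpr w r U P) (fm F σ a s t) ω i)| *
      2 ^ X ≤ 1 := by
    rw [abs_mul, abs_of_nonneg hwt.1, mul_assoc]
    have : F.wt w ω * (|ov F σ w r U P X a s t i ω - F.md (vpr w r U P) (fm F σ a s t) ω i| *
      2 ^ X) ≤ 1 * 1 := mul_le_mul hwt.2.le k2 (by positivity) zero_le_one
    linarith
  have lev : vpr w r U P i + w + X ≤ J := by
    have e : vpr w r U P i + w = ppr r U P i := Box.vpr_add hwr (hwr.trans hrU)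
      ((hwr.trans hrU).trans hUP) i
    rw [e]
    fin_cases i
    · show r + X ≤ J
      omega
    · show U + X ≤ J
      omega
    · show P + X ≤ J
      omega
  have g2 : |(2 : ℝ) ^ (vpr w r U P i + w) * (mco (fm F σ a s t ω) (F.x ω) i -
        mco (fm F σ a s t ω) (xJ (Fam.pt F ω)) i)| * 2 ^ X ≤ 1 + 2 * B := by
    rw [abs_mul, abs_of_pos (by positivity : (0 : ℝ) < 2 ^ (vpr w r U P i + w))]
    have e2 : (2 : ℝ) ^ (vpr w r U P i + w) * |mco (fm F σ a s t ω) (F.x ω) i -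
        mco (fm F σ a s t ω) (xJ (Fam.pt F ω)) i| * 2 ^ X =
        2 ^ (vpr w r U P i + w + X) * |mco (fm F σ a s t ω) (F.x ω) i -
        mco (fm F σ a s t ω) (xJ (Fam.pt F ω)) i| := by
      rw [pow_add _ _ X]
      ring
    rw [e2]
    calc _ ≤ (2 : ℝ) ^ J * ((1 + 2 * B) / 2 ^ J) := by
          refine mul_le_mul (pow_le_pow_right₀ (by norm_num) lev) k4 (abs_nonneg _) (by positivity)
      _ = 1 + 2 * B := by field_simp
  have g0 : |yv F σ w r U P X a s t i ω -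
      F.mu w (fun i => vpr w r U P i + w) (fm F σ a s t) ω i| * 2 ^ X ≤ 1 := k1
  have t1 := abs_add_le ((yv F σ w r U P X a s t i ω -
      F.mu w (fun i => vpr w r U P i + w) (fm F σ a s t) ω i) +
      F.wt w ω * (ov F σ w r U P X a s t i ω - F.md (vpr w r U P) (fm F σ a s t) ω i))
      (2 ^ (vpr w r U P i + w) * (mco (fm F σ a s t ω) (F.x ω) i -
        mco (fm F σ a s t ω) (xJ (Fam.pt F ω)) i))
  have t2 := abs_add_le (yv F σ w r U P X a s t i ω -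
      F.mu w (fun i => vpr w r U P i + w) (fm F σ a s t) ω i)
      (F.wt w ω * (ov F σ w r U P X a s t i ω - F.md (vpr w r U P) (fm F σ a s t) ω i))
  nlinarith [mul_le_mul_of_nonneg_right t1 h2.le, mul_le_mul_of_nonneg_right t2 h2.le]

end place

end Pool.RPL
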