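import Pool.Agent.H45.RPL.Hyp2
import Pool.Agent.H46.S6.PlvT

/-!
# The plateau of the thickness: one family

Theorem PLV with two coordinates in one of the contexts.
-/

set_option autoImplicit false

namespace Pool.RPL

open Finset Real
open Pool.Agent.H49.Ent Pool.Agent.H32.Dense Pool.STK Pool.KA Pool.KSAT Pool.K2S Pool.PLV
  Pool.UST

variable {J : ℕ}

theorem slam_of {F : Fam 3 J} {w w' : ℕ} (h : w ≤ w') (h' : w' ≤ J) {ω ω' : F.Ω}
    (e : slam F w' ω = slam F w' ω') : slam F w ω = slam F w ω' := by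
  have h1 := Prod.ext_iff.mp e
  have h2 := Prod.ext_iff.mp h1.2
  have h3 : F.T1 w' ω = F.T1 w' ω' := h2.2
  have key : ∀ v : F.Ω, F.T1 w v = F.T1 w' v / 2 ^ (w' - w) := by
    intro v
    unfold Fam.T1
    rw [Nat.div_div_eq_div_mul, ← pow_add]
    congr 2
    omega
  have h4 : F.T1 w ω = F.T1 w ω' := by rw [key, key, h3]
  exact Prod.ext h1.1 (Prod.ext h2.1 h4)

/-- The upper bound on the block. -/
theorem blk_le {F : Fam 3 J} {Q : F.Ω → ℝ} {σ : Fin 3 → Fin 3} {w r U P X : ℕ}
    {a s t : F.Ω → ℝ} (hQ : IsLaw Q) (hw : w ≤ J) (hwr : w ≤ r) (hrU : r ≤ U) (hUP : U ≤ P)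
    (hσ : Function.Injective σ) {h : ℝ}
    (hd : CH Q (F.sbx σ (r + X) U (P + X) a s t)
      (fun ω => (F.sbx σ r U P a s t ω, F.W ω)) ≤ h) :
    CH (cpy Q (slam F w)) (blk X (fun x => xv F σ w r U P X a s t 0 x.1)
      (fun x (_ : Fin 1) => xv F σ w r U P X a s t 2 x.1))
      (fun x => (F.ctx σ w r U P a s t x.1, F.T x.1)) ≤
      h + 2 * Real.log 17 + 3 * Real.log 15 := by
  obtain ⟨hL, m1, -, -, -, -⟩ := pair_facts (F := F) (w := w) hQ
  have h0 := hQ.nonneg
  have a1 : CH (cpy Q (slam F w)) (blk X (fun x => xv F σ w r U P X a s t 0 x.1)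
      (fun x (_ : Fin 1) => xv F σ w r U P X a s t 2 x.1))
      (fun x => (F.ctx σ w r U P a s t x.1, F.T x.1)) =
      CH Q (fun ω => (⌊(2 : ℝ) ^ X * xv F σ w r U P X a s t 0 ω⌋,
        (fun _ : Fin 1 => ⌊(2 : ℝ) ^ X * xv F σ w r U P X a s t 2 ω⌋)))
      (fun ω => (F.ctx σ w r U P a s t ω, F.T ω)) :=
    m1.CH (fun ω => (⌊(2 : ℝ) ^ X * xv F σ w r U P X a s t 0 ω⌋,
        (fun _ : Fin 1 => ⌊(2 : ℝ) ^ X * xv F σ w r U P X a s t 2 ω⌋)))
      (fun ω => (F.ctx σ w r U P a s t ω, F.T ω))
  have a2 := CH_le_add h0 (fun ω => (⌊(2 : ℝ) ^ X * xv F σ w r U P X a s t 0 ω⌋,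
        (fun _ : Fin 1 => ⌊(2 : ℝ) ^ X * xv F σ w r U P X a s t 2 ω⌋)))
      (F.sbx σ (r + X) U (P + X) a s t) (fun ω => (F.ctx σ w r U P a s t ω, F.T ω))
  have a3 := blk_near (σ := σ) (a := a) (s := s) (t := t) (X := X) hQ hw hwr hrU hUP
  have a4 := CH_le_add h0 (F.sbx σ (r + X) U (P + X) a s t) (F.sbx σ r U P a s t)
    (fun ω => (F.ctx σ w r U P a s t ω, F.T ω))
  have a5 := sbx_ctx (σ := σ) (a := a) (s := s) (t := t) hQ hw hwr hrU hUP
    (fun ω => (F.ctx σ w r U P a s t ω, F.T ω)) (fun ω ω' _ _ h => Prod.ext_iff.mp h) hσ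
  have a6 : CH Q (F.sbx σ (r + X) U (P + X) a s t)
      (fun ω => (F.sbx σ r U P a s t ω, (F.ctx σ w r U P a s t ω, F.T ω))) ≤
      CH Q (F.sbx σ (r + X) U (P + X) a s t) (fun ω => (F.sbx σ r U P a s t ω, F.W ω)) := by
    refine CH_mono_cond h0 fun ω ω' _ _ h => ?_
    have h1 := Prod.ext_iff.mp h
    have h2 := Prod.ext_iff.mp h1.2
    have h3 : F.Z ω = F.Z ω' := (Box.ctx_ext hσ h2.1).2.2
    exact Prod.ext h1.1 (Prod.ext h2.2 h3)
  rw [a1]
  linarith only [hd, a2, a3, a4, a5, a6]

/-- The slopes at two times. -/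
theorem close_of {B x₀ x₀' : ℝ} {X P r : ℕ} {R R' S S' : ℝ} (hR : |R - 2 ^ (P - r) * S| * 2 ^ X ≤ 1)
    (hR' : |R' - 2 ^ (P - r) * S'| * 2 ^ X ≤ 1) (hx : 2 * x₀ ≤ x₀') (hx1 : 2 * x₀ ≤ 1)
    (hB : 0 ≤ B) (hX : 8 * (B + 2) + 2 ≤ (2 : ℝ) ^ (x₀ * X))
    (h : |R - R'| < 8 * (B + 2) * (2 : ℝ) ^ (-(x₀' * X))) :
    |S - S'| * 2 ^ (P - r) < (2 : ℝ) ^ (-(x₀ * X)) := by
  have hXr : (0 : ℝ) ≤ X := Nat.cast_nonneg X
  have e1 : (2 : ℝ) ^ (-(x₀' * X)) ≤ (2 : ℝ) ^ (-(2 * (x₀ * X))) :=
    Real.rpow_le_rpow_of_exponent_le (by norm_num) (by nlinarith only [hx])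
  have e2 : 1 / (2 : ℝ) ^ X ≤ (2 : ℝ) ^ (-(2 * (x₀ * X))) := by
    rw [one_div, ← Real.rpow_natCast, ← Real.rpow_neg (by norm_num)]
    exact Real.rpow_le_rpow_of_exponent_le (by norm_num) (by nlinarith only [hx1])
  have e3 : (2 : ℝ) ^ (-(2 * (x₀ * X))) * (2 : ℝ) ^ (x₀ * X) = (2 : ℝ) ^ (-(x₀ * X)) := by
    rw [← Real.rpow_add (by norm_num)]
    congr 1
    ring
  have h2 : (0 : ℝ) < 2 ^ X := by positivity
  have n1 : |R - 2 ^ (P - r) * S| ≤ 1 / 2 ^ X := by rwa [le_div_iff₀ h2]
  have n2 : |R' - 2 ^ (P - r) * S'| ≤ 1 / 2 ^ X := by rwa [le_div_iff₀ h2]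
  have e4 : |S - S'| * 2 ^ (P - r) = |2 ^ (P - r) * S - 2 ^ (P - r) * S'| := by
    rw [← mul_sub, abs_mul, abs_of_pos (by positivity : (0 : ℝ) < 2 ^ (P - r)), mul_comm]
  have e5 : 2 ^ (P - r) * S - 2 ^ (P - r) * S' = (R - R') - (R - 2 ^ (P - r) * S) +
      (R' - 2 ^ (P - r) * S') := by ring
  have t1 := abs_add_le ((R - R') - (R - 2 ^ (P - r) * S)) (R' - 2 ^ (P - r) * S')
  have t2 := abs_sub (R - R') (R - 2 ^ (P - r) * S)
  rw [e4, e5]
  have hp : (0 : ℝ) < (2 : ℝ) ^ (-(2 * (x₀ * X))) := by positivity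
  have t3 : 8 * (B + 2) * (2 : ℝ) ^ (-(x₀' * X)) ≤ 8 * (B + 2) * (2 : ℝ) ^ (-(2 * (x₀ * X))) :=
    mul_le_mul_of_nonneg_left e1 (by linarith only [hB])
  have t4 : (8 * (B + 2) + 2) * (2 : ℝ) ^ (-(2 * (x₀ * X))) ≤ (2 : ℝ) ^ (-(x₀ * X)) := by
    rw [← e3, mul_comm]
    exact mul_le_mul_of_nonneg_left hX hp.le
  nlinarith only [h, e2, n1, n2, t1, t2, t3, t4]

/-- **The plateau of the thickness, one family.** -/
theorem rpl_one : RplOneStmt := by
  classical
  intro c ca B hc hca hB1
  have hB : 0 ≤ B := by linarith only [hB1]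
  have hl2 : 0 < Real.log 2 := Real.log_pos (by norm_num)
  have hl2b : Real.log 2 < 0.6931471808 := Real.log_two_lt_d9
  have hl2a : 0.6931471803 < Real.log 2 := Real.log_two_gt_d9
  obtain ⟨x₀', η, ϖ', ι, ε₁, n₀, hx₀', hη, hϖ', hι, hε₁, hplv⟩ :=
    plv 1 (c / 2) (ca / 4) (2 * B + 4) (by positivity) (by positivity) (by positivity)
  obtain ⟨ϖ₂, hϖ₂, hlay⟩ := Pool.DPL.layl_thm (1 / ϖ') (1 / 2) (by positivity) (by norm_num)
  obtain ⟨x₀, hx₀⟩ : ∃ x₀ : ℝ, x₀ = min x₀' 1 / 2 := ⟨_, rfl⟩
  have hx₀p : 0 < x₀ := by rw [hx₀]; have := lt_min hx₀' one_pos; positivity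
  have hx₀a : 2 * x₀ ≤ x₀' := by rw [hx₀]; linarith only [min_le_left x₀' 1]
  have hx₀b : 2 * x₀ ≤ 1 := by rw [hx₀]; linarith only [min_le_right x₀' 1]
  obtain ⟨lm, hlm⟩ : ∃ lm : ℝ, lm = min (ι / 4) (ϖ' * (ca / 4) * η * Real.log 2) := ⟨_, rfl⟩
  have hlmp : 0 < lm := by rw [hlm]; exact lt_min (by positivity) (by positivity)
  have hlma : lm ≤ ι / 4 := by rw [hlm]; exact min_le_left _ _
  have hlmb : lm ≤ ϖ' * (ca / 4) * η * Real.log 2 := by rw [hlm]; exact min_le_right _ _
  obtain ⟨N, hN⟩ := exists_nat_gt (96 / ι)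
  have hNp : 0 < N := by
    have : (0 : ℝ) < N := lt_of_le_of_lt (by positivity) hN
    exact_mod_cast this
  obtain ⟨M, hM⟩ := exists_nat_gt (64 / ι)
  have hMp : 0 < M := by
    have : (0 : ℝ) < M := lt_of_le_of_lt (by positivity) hM
    exact_mod_cast this
  have l15 : 0 < Real.log 15 := Real.log_pos (by norm_num)
  have l17 : 0 < Real.log 17 := Real.log_pos (by norm_num)
  have lB : 0 ≤ Real.log (2 * (B + 1) + 1) := Real.log_nonneg (by linarith only [hB1, hl2b, hl2a])
  obtain ⟨n₁, hn₁⟩ := exists_nat_gt (Real.logb 2 (8 * (B + 2) + 2) / x₀)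
  obtain ⟨n₂, hn₂⟩ := exists_nat_gt (Real.log (2 * (B + 1) + 1) + 3 * Real.log 15 +
    12 * Real.log 15 * N + 8 * Real.log 17 / ι + 2 / x₀' +
    2 * (2 * Real.log 17 + 3 * Real.log 15) / (c * Real.log 2) + 1)
  exact by
   refine ⟨x₀, lm, min η 1, min ϖ₂ 1, ε₁ ^ 4 / 16, max n₀ (max n₁ n₂), N, M, hx₀p, hlmp,
     lt_min hη one_pos, min_le_right _ _, lt_min hϖ₂ one_pos, min_le_right _ _, by positivity,
     hNp, hMp, ?_⟩
   intro J F A σ X w r U P a s t kk bb hX hR
   obtain ⟨bij, law, hrU, hUP, wr, step, top, time, det, bd, str, kbd, vis, dfc, act, h6⟩ := hR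
   obtain ⟨Q, hQd⟩ : ∃ Q, Q = Pool.Agent.H49.Ent.cond F.p A True := ⟨_, rfl⟩
   rw [← hQd] at law time det
   simp only [← hQd] at vis dfc h6
   have hpA : 0 < Pe F.p A := by
     by_contra hcon
     have h1 : Pe F.p A = 0 := le_antisymm (not_lt.1 hcon) (Pe_nonneg F.isLaw A)
     have h2 : ∀ ω, Q ω = 0 := by
       intro ω
       rw [hQd, cond_ev_eq]
       split_ifs
       · rw [h1, div_zero]
       · rfl
     have h3 := law.sum_one
     simp only [h2, Finset.sum_const_zero] at h3
     exact one_ne_zero h3.symm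
   have hA : ∀ ω, 0 < Q ω → A ω := by
     intro ω hω
     rw [hQd] at hω
     exact of_eq_true ((cond_pos_iff F.isLaw.nonneg A True ω).1 hω).2
   have h0 := law.nonneg
   have hX0 : n₀ ≤ X := (le_max_left _ _).trans hX
   have hX1 : (n₁ : ℝ) ≤ X := by exact_mod_cast (le_max_left n₁ n₂).trans ((le_max_right _ _).trans hX)
   have hX2 : (n₂ : ℝ) ≤ X := by
     exact_mod_cast (le_max_right n₁ n₂).trans ((le_max_right _ _).trans hX)
   have hXr : (0 : ℝ) ≤ X := Nat.cast_nonneg X
   exact by
    have p1 : 0 ≤ 12 * Real.log 15 * N := by positivity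
    have p2 : 0 ≤ 8 * Real.log 17 / ι := by positivity
    have p3 : 0 ≤ 2 / x₀' := by positivity
    have p4 : 0 ≤ 2 * (2 * Real.log 17 + 3 * Real.log 15) / (c * Real.log 2) := by positivity
    have q1 : Real.log (2 * (B + 1) + 1) ≤ X := by linarith only [hl2b, hl2a, l15, hn₂, hX2, p1, p2, p3, p4]
    have q2 : 3 * Real.log 15 + 12 * Real.log 15 * N ≤ X := by linarith only [hl2b, hl2a, lB, hn₂, hX2, p2, p3, p4]
    have q3 : 8 * Real.log 17 ≤ ι * X := by
      have : 8 * Real.log 17 / ι ≤ X := by linarith only [hl2b, hl2a, l15, lB, hn₂, hX2, p1, p3, p4]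
      rw [div_le_iff₀ hι] at this
      linarith only [this]
    have q4 : 2 ≤ x₀' * X := by
      have : 2 / x₀' ≤ X := by linarith only [hl2b, hl2a, l15, lB, hn₂, hX2, p1, p2, p4]
      rw [div_le_iff₀ hx₀'] at this
      linarith only [this]
    have q5 : 2 * (2 * Real.log 17 + 3 * Real.log 15) < c * Real.log 2 * X := by
      have : 2 * (2 * Real.log 17 + 3 * Real.log 15) / (c * Real.log 2) < X := by linarith only [hl2b, hl2a, l15, lB, hn₂, hX2, p1, p2, p3]
      rw [div_lt_iff₀ (by positivity)] at this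
      linarith only [this]
    have q6 : 8 * (B + 2) + 2 ≤ (2 : ℝ) ^ (x₀ * X) := by
      have h1 : Real.logb 2 (8 * (B + 2) + 2) / x₀ ≤ X := by linarith only [hn₁, hX1]
      rw [div_le_iff₀ hx₀p] at h1
      have h2 : Real.logb 2 (8 * (B + 2) + 2) ≤ x₀ * X := by linarith only [h1]
      rwa [Real.logb_le_iff_le_rpow (by norm_num) (by linarith only [hB1, hl2b, hl2a])] at h2
    have hXp : (1 : ℝ) < X := by linarith only [l15, lB, hn₂, hX2, p1, p2, p3, p4]
    -- the windows
    have hwJ : ∀ j ≤ N, w j ≤ r := by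
      intro j
      induction j with
      | zero => intro _; exact wr
      | succ j ih =>
        intro hj
        have := step j (by omega)
        have := ih (by omega)
        omega
    exact by
     have hwN : ∀ i, ∀ j, j + i = N → w N ≤ w j := by
       intro i
       induction i with
       | zero => intro j hj; rw [show j = N by omega]
       | succ i ih =>
         intro j hj
         have := step j (by omega)
         have := ih (j + 1) (by omega)
         omega
     have hkX : ∀ k < M, (k + 1) * X ≤ (M + 1) * X := fun k hk => Nat.mul_le_mul_right X (by omega)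
     have lev : ∀ k < M, P + k * X + X ≤ J := by
       intro k hk
       have h1 := hkX k hk
       have h2 : (k + 1) * X = k * X + X := by ring
       omega
     have eP : ∀ k, P + k * X - (r + k * X) = P - r := fun k => by omega
     -- the frame
     have hdet : ∀ j < N, Fdet F Q (w j) a s t := by
       intro j hj ω ω' hω hω' e
       have h1 := lev 0 hMp
       have h2 := hwJ j hj.le
       exact det ω ω' hω hω' (slam_of (hwN (N - j) j (by omega)) (by omega) e)
     have hbd : ∀ ω, 0 < Q ω → |a ω| ≤ B ∧ |s ω| ≤ B ∧ |t ω| ≤ B := fun ω hω => bd ω (hA ω hω)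
     have hkb : ∀ ω, 0 < Q ω → |kk (Fam.pt F ω)| ≤ B / 2 ^ (P - r) := fun ω hω => kbd ω (hA ω hω)
     -- the place
     obtain ⟨f, hf⟩ : ∃ f : ℕ → ℕ → ℝ, f = fun j k =>
       dl (cpy Q (slam F (w j))) (fun x => rc F r P X kk x.2)
         (fun x => lk F σ (w j) (r + k * X) (U + k * X) (P + k * X) X a s t x.1)
         (fun x => (F.ctx σ (w j) (r + k * X) (U + k * X) (P + k * X) a s t x.1,
           (F.T x.1, F.T x.2))) := ⟨_, rfl⟩
     exact by
      obtain ⟨g, hg⟩ : ∃ g : ℕ → ℕ → ℝ, g = fun j k =>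
        dl Q (F.sbx σ (r + k * X + X) (U + k * X) (P + k * X + X) a s t)
          (vk F σ (w j) (r + k * X) (U + k * X) (P + k * X) X a s t)
          (fun ω => (F.ctx σ (w j) (r + k * X) (U + k * X) (P + k * X) a s t ω, F.T ω)) := ⟨_, rfl⟩
      have hf0 : ∀ j < N, ∀ k < M, 0 ≤ f j k := by
        intro j _ k _
        rw [hf]
        exact dl_nonneg (pair_facts (F := F) (w := w j) law).1.nonneg _ _ _
      have hg0 : ∀ j < N, ∀ k < M, 0 ≤ g j k := by
        intro j _ k _
        rw [hg]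
        exact dl_nonneg h0 _ _ _
      have hfs : ∀ j < N, ∑ k ∈ range M, f j k ≤ 2 * X := by
        intro j hj
        rw [hf]
        refine (m_sum (σ := σ) (a := a) (s := s) (t := t) law (hwJ j hj.le) hrU hUP M hkb
          (fun x => (F.T x.1, F.T x.2))).trans ?_
        nlinarith only [hl2b, hl2a, l15, lB, hn₂, hX2, p1, p2, p3, p4]
      have hgs : ∀ k < M, ∑ j ∈ range N, g j k ≤ 3 * X := by
        intro k hk
        rw [hg]
        refine (b0_sum (σ := σ) (a := a) (s := s) (t := t) law bij.1 (by omega) step (by omega)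
          (by omega) (lev k hk)).trans ?_
        nlinarith only [hl2b, hl2a, l15, lB, hn₂, hX2, p1, p2, p3, p4]
      obtain ⟨j, hj, k, hk, hfj, hgj⟩ := Pool.S6N.exists_place hNp hMp f g (A := 2 * X) (B := 3 * X)
        (ε := ι / 8 * X) (by positivity) hf0 hg0 hfs hgs
        (by
          have h1 : 64 / ι ≤ M := hM.le
          rw [div_le_iff₀ hι] at h1
          nlinarith only [h1]) (by
          have h1 : 96 / ι ≤ N := hN.le
          rw [div_le_iff₀ hι] at h1
          nlinarith only [h1])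
      exact by
       have hwj := hwJ j hj.le
       have hlk := lev k hk
       obtain ⟨r', hr'⟩ : ∃ r', r' = r + k * X := ⟨_, rfl⟩
       obtain ⟨U', hU'⟩ : ∃ U', U' = U + k * X := ⟨_, rfl⟩
       obtain ⟨P', hP'⟩ : ∃ P', P' = P + k * X := ⟨_, rfl⟩
       have ePr : P' - r' = P - r := by rw [hr', hP']; exact eP k
       have erc : ∀ ω, rc F r' P' X kk ω = rc F r P X kk ω := by
         intro ω
         unfold rc
         rw [ePr]
       rw [hf] at hfj
       rw [hg] at hgj
       simp only at hfj hgj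
       rw [← hr', ← hU', ← hP'] at hfj hgj
       have vis' := vis j hj k hk
       have dfc' := dfc k hk
       have act' := act j hj k hk
       rw [← hr', ← hU', ← hP'] at vis' dfc'
       simp only [← hr'] at act'
       have hwr' : w j ≤ r' := by omega
       have hrU' : r' ≤ U' := by omega
       have hUP' : U' ≤ P' := by omega
       have hPX' : P' + X ≤ J := by omega
       have hkb' : ∀ ω, 0 < Q ω → |kk (Fam.pt F ω)| ≤ B / 2 ^ (P' - r') := by
         rw [ePr]
         exact hkb
       have hdj := hdet j hj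
       have time' : (J : ℝ) * Real.log 2 - lm * X ≤ CH Q F.T (fun ω => (F.l ω, F.Z ω)) := time
       have hstr : ∀ ω, 0 < Q ω → |F.d ω (σ 2) - s ω * F.d ω (σ 1) - t ω * F.d ω (σ 0) -
           bb (Fam.pt F ω) - kk (Fam.pt F ω) * F.d ω (σ 0)| ≤ B / 2 ^ (P' + X - w j) := by
         intro ω hω
         refine (str ω (hA ω hω)).trans (Box.div_pow_mono hB ?_)
         have h1 := hkX k hk
         have h2 : (k + 1) * X = k * X + X := by ring
         have h3 := hwN (N - j) j (by omega)
         omega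
       exact by
        have hdat := pvdata (σ := σ) (X := X) (kk := kk) (bb := bb) law hdj
          (by omega : w j ≤ J) hwr' hrU' hUP' hPX' hbd hstr hkb' hB
        have lmX : lm * X ≤ ι / 4 * X := mul_le_mul_of_nonneg_right hlma hXr
        have hiX : 0 < ι * X := by positivity
        have fin := hplv (F.Ω × F.Ω) _ _ _ _ _ _ (cpy Q (slam F (w j))) _ _ _ _ _ _ _ _ _ _ _ _ _ _ _
          X hdat hX0 ?_
        · -- the contradiction
          have h1 := blk_le (σ := σ) (a := a) (s := s) (t := t) (X := X) law (by omega : w j ≤ J) hwr'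
            hrU' hUP' bij.1 dfc'
          have h2 : ((1 : ℕ) + 1 - c / 2) * X * Real.log 2 ≤
            (2 - c) * X * Real.log 2 + 2 * Real.log 17 + 3 * Real.log 15 := fin.trans h1
          push_cast at h2
          nlinarith only [q5, fin, h1]
        · obtain ⟨hL, m1, m2, hpos, -, -⟩ := pair_facts (F := F) (w := w j) law
          refine ⟨?_, ?_, ?_, ?_, ?_, ?_⟩
          · -- h1
            refine (hyp1 (σ := σ) law hdj (by omega) time').trans ?_
            linarith only [l17, q3, lmX]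
          · -- h1'
            have h1 := hyp1' (σ := σ) (r := r') (U := U') (P := P') (X := X) (kk := kk) law hdj
              (by omega) time'
            refine le_trans ?_ h1
            have h2 : ι / 4 * X ≤ ι * X * Real.log 2 := by nlinarith only [hl2, q3, hl2b, l17, hl2a]
            have e1 : (1 - ι) * X * Real.log 2 = X * Real.log 2 - ι * X * Real.log 2 := by ring
            rw [e1]
            linarith only [lmX, h2]
          · -- h2
            have h1 := hyp2 (σ := σ) (r := r') (U := U') (P := P') (X := X) (kk := kk) law hdj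
              (by omega) hwr' hrU' hUP' time'
            simp only [erc] at h1
            simp only [erc]
            refine h1.trans ?_
            linarith only [l17, q3, hgj, hfj, lmX]
          · -- h4
            intro n X' hX'1 hX'2 E hE
            have hX'0 : (0 : ℝ) ≤ X' := Nat.cast_nonneg X'
            have h1 := hyp4 (σ := σ) (r := r') (U := U') (P := P') (X := X) (kk := kk) (n := n)
              (X' := X') (v := lm * X) (b0 := (1 - 1 / 2) * (ca * X' * Real.log 2)) law hdj hX'2 hϖ' hE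
              (by
                intro μ hμ hμb
                refine hlay F.Ω _ _ Q μ _ _ (ca * X' * Real.log 2) law hμ hμb (by positivity) ?_
                intro A' hA'
                have hPe : Pe Q A' = Pe F.p (fun ω => A ω ∧ A' ω) / Pe F.p A := by
                  rw [hQd]
                  exact Pe_cond A'
                have h2 := act' n X' (le_trans (mul_le_mul_of_nonneg_right (min_le_left _ _) hXr) hX'1)
                  hX'2 (fun ω => A ω ∧ A' ω) (fun ω h => h.1) (by
                    rw [hPe, le_div_iff₀ hpA] at hA'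
                    refine le_trans ?_ hA'
                    exact mul_le_mul_of_nonneg_right (min_le_left _ _) hpA.le)
                rw [hQd, cond_and_ev F.p hpA.ne']
                rw [← add_assoc]
                exact h2) vis'
            simp only [erc] at h1
            simp only [erc]
            refine le_trans ?_ h1
            have h2 : lm * X / ϖ' ≤ ca / 4 * X' * Real.log 2 := by
              rw [div_le_iff₀ hϖ']
              calc lm * X ≤ ϖ' * (ca / 4) * η * Real.log 2 * X :=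
                    mul_le_mul_of_nonneg_right hlmb hXr
                _ = ϖ' * (ca / 4) * Real.log 2 * (η * X) := by ring
                _ ≤ ϖ' * (ca / 4) * Real.log 2 * X' :=
                    mul_le_mul_of_nonneg_left hX'1 (by positivity)
                _ = ca / 4 * X' * Real.log 2 * ϖ' := by ring
            linarith only [h2]
          · -- h6
            have hth : (0 : ℝ) < (2 : ℝ) ^ (-(x₀' * X)) := by positivity
            have hth4 : (2 : ℝ) ^ (-(x₀' * X)) ≤ 1 / 4 := by
              calc (2 : ℝ) ^ (-(x₀' * X)) ≤ (2 : ℝ) ^ (-2 : ℝ) :=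
                    Real.rpow_le_rpow_of_exponent_le (by norm_num) (by linarith only [q4])
                _ = 1 / 4 := by
                    rw [Real.rpow_neg (by norm_num)]
                    norm_num
            have h1 := h6one law (slam F (w j)) (fun ω => (rc F r P X kk ω : ℝ) / 2 ^ X)
              (fun ω => ((F.ctx σ (w j) r' U' P' a s t ω, F.T ω),
                (⌊(2 : ℝ) ^ X * xv F σ (w j) r' U' P' X a s t 0 ω⌋,
                  (fun _ : Fin 1 => ⌊(2 : ℝ) ^ X * xv F σ (w j) r' U' P' X a s t 2 ω⌋))))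
              (K := B + 1) (dl := 8 * (B + 2) * (2 : ℝ) ^ (-(x₀' * X))) (eps := ε₁ ^ 4 / 16)
              (eps1 := ε₁) (th := (2 : ℝ) ^ (-(x₀' * X)))
              (fun ω hω => rc_le (X := X) (hkb ω hω)) (by
                refine le_trans ?_ (h6 j hj)
                rw [Pe_eq, Pe_eq]
                refine Finset.sum_le_sum fun x _ => ?_
                by_cases h2 : |(rc F r P X kk x.1 : ℝ) / 2 ^ X - (rc F r P X kk x.2 : ℝ) / 2 ^ X| <
                    8 * (B + 2) * (2 : ℝ) ^ (-(x₀' * X))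
                · rw [if_pos h2, if_pos (close_of (rc_near x.1) (rc_near x.2) hx₀a hx₀b hB q6 h2)]
                · rw [if_neg h2]
                  split_ifs
                  · exact hL.nonneg x
                  · exact le_rfl) hε₁ le_rfl hth hth4 (by
                have : 8 * (B + 1 + 1) * (2 : ℝ) ^ (-(x₀' * X)) =
                  8 * (B + 2) * (2 : ℝ) ^ (-(x₀' * X)) := by ring
                exact this.le)
            simp only [erc]
            exact h1
          · -- h7
            rw [MI_eq_dl hL.nonneg]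
            unfold dl
            have h1 : CH (cpy Q (slam F (w j)))
                (blk X (fun x => xv F σ (w j) r' U' P' X a s t 0 x.1)
                  (fun x (_ : Fin 1) => xv F σ (w j) r' U' P' X a s t 2 x.1))
                (fun x => (F.ctx σ (w j) r' U' P' a s t x.1, F.T x.1)) ≤
                CH (cpy Q (slam F (w j)))
                (blk X (fun x => xv F σ (w j) r' U' P' X a s t 0 x.1)
                  (fun x (_ : Fin 1) => xv F σ (w j) r' U' P' X a s t 2 x.1))
                (fun x => ((), (F.ctx σ (w j) r' U' P' a s t x.1, F.T x.1))) :=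
              CH_mono_cond hL.nonneg fun x x' _ _ h => Prod.ext rfl h
            linarith only [l17, q3, h1]

end Pool.RPL
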