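import Pool.Agent.H8.KS6.BoxC
import Pool.Agent.H9.K2.Defs2
import Pool.Agent.H13.K2S.Lin
import Pool.Agent.H97.OC.OCD

/-!
# The plateau of the thickness with turning directions: one family

`N + 1` windows `w 0 > w 1 > ... > w N`, `M` rows. ONE constant frame `(a, s, t)`, a function of the
line and of the largest window `w N`. The context of the window `w j` and of the row `k` is the box
`F.ctx σ (w j) (r + k X) (U + k X) (P + k X) a s t`: levels `r, U, P` of the three coordinates of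
the position; velocities `r - w, U - w, P - w`. At the exact points the normal velocity is
`d_N - s d_u - t d_e = kk d_e + bb`, with `|kk|` at most about `2 ^ (-(P - r))`.
-/

set_option autoImplicit false

namespace Pool.RPL

open Finset Real
open Pool.Agent.H49.Ent Pool.Agent.H32.Dense Pool.STK Pool.KA Pool.KSAT Pool.K2S

variable {J : ℕ}

/-- The data of one family. -/
structure RIn (F : Fam 3 J) (A : F.Ω → Prop) (σ : Fin 3 → Fin 3) (N M X : ℕ) (w : ℕ → ℕ)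
    (r U P : ℕ) (a s t : F.Ω → ℝ) (kk bb : (Fin 3 → ℤ) × (ℕ × F.ζ) → ℝ)
    (B c ca x₀ lm κ ϖ ε : ℝ) : Prop where
  bij : Function.Bijective σ
  law : IsLaw (Pool.Agent.H49.Ent.cond F.p A True)
  rU : r ≤ U
  UP : U ≤ P
  /-- the windows -/
  wr : w 0 ≤ r
  step : ∀ j < N, w (j + 1) + X ≤ w j
  top : P + (M + 1) * X ≤ J
  /-- the time is full given the line -/
  time : (J : ℝ) * Real.log 2 - lm * X ≤
    CH (Pool.Agent.H49.Ent.cond F.p A True) F.T (fun ω => (F.l ω, F.Z ω))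
  /-- the frame is a function of the line and of the largest window -/
  det : Det (Pool.Agent.H49.Ent.cond F.p A True) (slam F (w N)) (fun ω => (a ω, s ω, t ω))
  bd : ∀ ω, A ω → |a ω| ≤ B ∧ |s ω| ≤ B ∧ |t ω| ≤ B
  /-- the velocities at the exact points are straight in the direction of the normal -/
  str : ∀ ω, A ω → |F.d ω (σ 2) - s ω * F.d ω (σ 1) - t ω * F.d ω (σ 0) - bb (Fam.pt F ω) -
    kk (Fam.pt F ω) * F.d ω (σ 0)| ≤ B / 2 ^ (P + (M + 1) * X - w N)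
  kbd : ∀ ω, A ω → |kk (Fam.pt F ω)| ≤ B / 2 ^ (P - r)
  /-- the contexts are visible -/
  vis : ∀ j < N, ∀ k < M, CH (Pool.Agent.H49.Ent.cond F.p A True)
    (F.ctx σ (w j) (r + k * X) (U + k * X) (P + k * X) a s t)
    (fun ω => (F.D (r + k * X - w j) ω (σ 0), Fam.pt F ω)) ≤ lm * X
  /-- the block of `x_e` and of the normal coordinate is not full -/
  dfc : ∀ k < M, CH (Pool.Agent.H49.Ent.cond F.p A True)
    (F.sbx σ (r + k * X + X) (U + k * X) (P + k * X + X) a s t)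
    (fun ω => (F.sbx σ (r + k * X) (U + k * X) (P + k * X) a s t ω, F.W ω)) ≤
      (2 - c) * X * Real.log 2
  /-- the velocity is active given the exact point -/
  act : ∀ j < N, ∀ k < M, ∀ n X' : ℕ, κ * X ≤ X' → n + X' ≤ X → ∀ E : F.Ω → Prop, Sub E A →
    ϖ * Pe F.p A ≤ Pe F.p E → ca * X' * Real.log 2 ≤
      CH (Pool.Agent.H49.Ent.cond F.p E True)
        (fun ω => F.D (r + k * X - w j + n + X') ω (σ 0))
        (fun ω => (F.D (r + k * X - w j + n) ω (σ 0), Fam.pt F ω))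
  /-- the normal turns on the line -/
  h6 : ∀ j < N, Pe (cpy (Pool.Agent.H49.Ent.cond F.p A True) (slam F (w j)))
    (fun x => |kk (Fam.pt F x.1) - kk (Fam.pt F x.2)| * 2 ^ (P - r) < (2 : ℝ) ^ (-(x₀ * X))) ≤ ε

/-- **(RPL)** The data are contradictory. -/
def RplOneStmt : Prop :=
  ∀ c ca B : ℝ, 0 < c → 0 < ca → 1 ≤ B →
    ∃ (x₀ lm κ ϖ ε : ℝ) (X₀ N M : ℕ), 0 < x₀ ∧ 0 < lm ∧ 0 < κ ∧ κ ≤ 1 ∧ 0 < ϖ ∧ ϖ ≤ 1 ∧ 0 < ε ∧
      0 < N ∧ 0 < M ∧
    ∀ (J : ℕ) (F : Fam 3 J) (A : F.Ω → Prop) (σ : Fin 3 → Fin 3) (X : ℕ) (w : ℕ → ℕ)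
      (r U P : ℕ) (a s t : F.Ω → ℝ) (kk bb : (Fin 3 → ℤ) × (ℕ × F.ζ) → ℝ), X₀ ≤ X →
      RIn F A σ N M X w r U P a s t kk bb B c ca x₀ lm κ ϖ ε → False

end Pool.RPL
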