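import Pool.Agent.H45.RPL.Dat
import Pool.Agent.H23.S6E.Vdf
import Pool.Agent.H2.UST.Ev

/-!
# The plateau of the thickness: the two telescopes
-/

set_option autoImplicit false

namespace Pool.RPL

open Finset Real
open Pool.Agent.H49.Ent Pool.Agent.H32.Dense Pool.STK Pool.KA Pool.KSAT Pool.K2S Pool.PLV
  Pool.UST

section ent

variable {Ω S T U V : Type} [Fintype Ω] {p : Ω → ℝ}

/-- A variable which is almost known. -/
theorem dl_near (hp : ∀ ω, 0 ≤ p ω) {X : Ω → S} {X' : Ω → V} {Y : Ω → T} {Z : Ω → U} :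
    dl p X' Y Z ≤ dl p X Y Z + CH p X' (fun ω => (X ω, Z ω)) := by
  have h1 := dl_chain' hp X' X Y Z
  have h2 : dl p X' Y Z ≤ dl p (fun ω => (X' ω, X ω)) Y Z :=
    dl_mono hp (fun ω ω' _ _ h => (Prod.ext_iff.mp (Prod.ext_iff.mp h).1).1)
  have h3 : dl p X' Y (fun ω => (X ω, Z ω)) ≤ CH p X' (fun ω => (X ω, Z ω)) := by
    unfold dl
    have := CH_nonneg hp X' (fun ω => (Y ω, (X ω, Z ω)))
    linarith
  linarith

theorem dl_congr (hp : ∀ ω, 0 ≤ p ω) (X : Ω → S) (Y : Ω → T) {Z : Ω → U} {Z' : Ω → V}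
    (h : Det p Z Z') (h' : Det p Z' Z) : dl p X Y Z = dl p X Y Z' := by
  unfold dl
  have e1 : CH p X Z = CH p X Z' := CH_congr hp (fun ω ω' _ _ h => (Prod.ext_iff.mp h).1)
    (fun ω ω' _ _ h => (Prod.ext_iff.mp h).1) h h'
  have e2 : CH p X (fun ω => (Y ω, Z ω)) = CH p X (fun ω => (Y ω, Z' ω)) := by
    refine CH_congr hp (fun ω ω' _ _ h => (Prod.ext_iff.mp h).1)
      (fun ω ω' _ _ h => (Prod.ext_iff.mp h).1) ?_ ?_
    · intro ω ω' a c e
      exact Prod.ext (Prod.ext_iff.mp e).1 (h ω ω' a c (Prod.ext_iff.mp e).2)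
    · intro ω ω' a c e
      exact Prod.ext (Prod.ext_iff.mp e).1 (h' ω ω' a c (Prod.ext_iff.mp e).2)
  rw [e1, e2]

/-- The dependence is at most the entropy of the second variable. -/
theorem dl_le_right (hp : ∀ ω, 0 ≤ p ω) (X : Ω → S) (Y : Ω → T) (Z : Ω → U) :
    dl p X Y Z ≤ CH p Y Z := by
  rw [dl_symm hp]
  unfold dl
  have := CH_nonneg hp Y (fun ω => (X ω, Z ω))
  linarith

end ent

variable {J : ℕ} {F : Fam 3 J} {Q : F.Ω → ℝ} {σ : Fin 3 → Fin 3} {w r U P X : ℕ}
  {a s t : F.Ω → ℝ} {kk bb : (Fin 3 → ℤ) × (ℕ × F.ζ) → ℝ} {B : ℝ}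

theorem vpr_X (hwr : w ≤ r) (hrU : r ≤ U) (hUP : U ≤ P) (X : ℕ) (i : Fin 3) :
    vpr w (r + X) (U + X) (P + X) i = vpr w r U P i + X := by
  fin_cases i
  · show r + X - w = r - w + X
    omega
  · show U + X - w = U - w + X
    omega
  · show P + X - w = P - w + X
    omega

/-- Coarser cells of the velocity. -/
theorem mvl_coarse {c c' : Fin 3 → ℕ} {M : F.Ω → Fin 3 → Fin 3 → ℝ} {ω ω' : F.Ω}
    (hc : ∀ i, c i ≤ c' i) (hM : M ω = M ω') (h : F.mvl c' M ω = F.mvl c' M ω') :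
    F.mvl c M ω = F.mvl c M ω' := by
  funext i
  have e := congrFun h i
  unfold Fam.mvl flk at e ⊢
  exact Vd.fl_lift (hc i) e

/-- The context of the next row contains the context and the digits of the line. -/
theorem ctx_next (hwr : w ≤ r) (hrU : r ≤ U) (hUP : U ≤ P) {ω ω' : F.Ω}
    (h : F.ctx σ w (r + X) (U + X) (P + X) a s t ω =
      F.ctx σ w (r + X) (U + X) (P + X) a s t ω') :
    F.ctx σ w r U P a s t ω = F.ctx σ w r U P a s t ω' ∧
      lk F σ w r U P X a s t ω = lk F σ w r U P X a s t ω' := by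
  have e1 : F.ctx σ w (r + X) (U + X) (P + X) a s t = F.mlb w
      (fun i => (vpr w r U P i + w) + X) (fun i => vpr w r U P i + X) (fm F σ a s t) := by
    unfold Fam.ctx Fam.blb
    have e2 : vpr w (r + X) (U + X) (P + X) = fun i => vpr w r U P i + X := by
      funext i
      exact vpr_X hwr hrU hUP X i
    rw [e2]
    show F.mlb w (fun i => vpr w r U P i + X + w) (fun i => vpr w r U P i + X) (fm F σ a s t) = _
    congr 1
    funext i
    ring
  rw [e1] at h
  have h1 : F.ctx σ w r U P a s t ω = F.ctx σ w r U P a s t ω' :=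
    Pool.S6N.mlb_coarse F (fun i => Nat.le_add_right _ _) (fun i => Nat.le_add_right _ _) h
  refine ⟨h1, ?_⟩
  have h2 := Box.digits_det (F := F) (g := w) (k := fun i => vpr w r U P i + w)
    (c := vpr w r U P) (M := fm F σ a s t) h1 h
  unfold lk
  refine Prod.ext ?_ ?_
  · funext i
    exact (h2 i).1
  · funext i
    exact (h2 i).2

/-- The digits of the velocity. -/
noncomputable def vk (F : Fam 3 J) (σ : Fin 3 → Fin 3) (w r U P X : ℕ) (a s t : F.Ω → ℝ)
    (ω : F.Ω) : ℤ × ℤ :=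
  (⌊(2 : ℝ) ^ X * F.md (vpr w r U P) (fm F σ a s t) ω 0⌋,
    ⌊(2 : ℝ) ^ X * F.md (vpr w r U P) (fm F σ a s t) ω 2⌋)

/-- One step of the chain with fixed positions. -/
theorem b0_step (hQ : IsLaw Q) {w₁ : ℕ} (hw : w ≤ J) (hwX : w₁ + X ≤ w) (hwr : w ≤ r)
    (hrU : r ≤ U) (hUP : U ≤ P) :
    CH Q (fun ω => (vk F σ w r U P X a s t ω, F.ctx σ w r U P a s t ω))
      (fun ω => (F.ctx σ w₁ r U P a s t ω, F.T ω)) ≤ 6 * Real.log 15 := by
  classical
  have hv : ∀ i, vpr w r U P i + w = ppr r U P i := fun i =>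
    Box.vpr_add hwr (hwr.trans hrU) ((hwr.trans hrU).trans hUP) i
  have hv₁ : ∀ i, vpr w₁ r U P i + w₁ = ppr r U P i := fun i =>
    Box.vpr_add (by omega) (by omega) (by omega) i
  have k1 : CH Q (F.mlb w (fun i => vpr w r U P i + w) (fun i => vpr w r U P i + X)
      (fm F σ a s t)) (fun ω => (F.ctx σ w₁ r U P a s t ω, F.T ω)) ≤
      2 * ((3 : ℕ) * Real.log (4 * (3 : ℕ) * 1 + 3)) := by
    refine Box.CH_mlb (F := F) (g := w₁) (g' := w) (k := fun i => vpr w₁ r U P i + w₁)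
      (c := vpr w₁ r U P) (kk := fun i => vpr w₁ r U P i + w₁) (M := fm F σ a s t) hQ
      (by omega) hw zero_le_one (fun _ => le_rfl) (fun i => by
        have : min w₁ w = w₁ := min_eq_left (by omega)
        rw [this]) ?_ _ ?_
    · intro ω _
      refine ⟨_, Box.cg_refl _, ?_, ?_⟩
      · intro i j
        by_cases h : i = j
        · subst h
          rw [if_pos rfl, abs_one, hv, hv₁, one_mul, div_self (by positivity)]
        · rw [if_neg h, abs_zero]
          positivity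
      · intro i j
        by_cases h : i = j
        · subst h
          rw [if_pos rfl, abs_one, one_mul, le_div_iff₀ (by positivity), one_mul]
          refine pow_le_pow_right₀ (by norm_num) ?_
          have e1 := hv i
          have e2 := hv₁ i
          omega
        · rw [if_neg h, abs_zero]
          positivity
    · intro ω ω' _ _ h
      have h1 := Prod.ext_iff.mp h
      have h2 : F.ctx σ w₁ r U P a s t ω = F.ctx σ w₁ r U P a s t ω' := h1.1
      refine ⟨h2, Lab.T1_of_T h1.2, ?_⟩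
      exact (Box.mlb_ext (F := F) (g := w₁) (k := fun i => vpr w₁ r U P i + w₁)
        (c := vpr w₁ r U P) (M := fm F σ a s t) h2).2.1
  have k2 : CH Q (fun ω => (vk F σ w r U P X a s t ω, F.ctx σ w r U P a s t ω))
      (fun ω => (F.ctx σ w₁ r U P a s t ω, F.T ω)) ≤
      CH Q (F.mlb w (fun i => vpr w r U P i + w) (fun i => vpr w r U P i + X)
        (fm F σ a s t)) (fun ω => (F.ctx σ w₁ r U P a s t ω, F.T ω)) := by
    refine CH_mono_left hQ.nonneg ?_
    intro ω ω' _ _ h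
    have h1 := (Prod.ext_iff.mp h).1
    obtain ⟨m1, m2, m3, m4, m5⟩ := Box.mlb_ext (F := F) h1
    have m6 : F.mvl (vpr w r U P) (fm F σ a s t) ω = F.mvl (vpr w r U P) (fm F σ a s t) ω' :=
      mvl_coarse (fun i => Nat.le_add_right _ _) m2 m4
    refine Prod.ext ?_ ?_
    · show vk F σ w r U P X a s t ω = vk F σ w r U P X a s t ω'
      unfold vk
      rw [Box.fl_md, Box.fl_md, Box.fl_md, Box.fl_md, m4, m6]
    · exact Box.mlb_mk (F := F) m1 m2 m3 m6 m5
  refine k2.trans (k1.trans (le_of_eq ?_))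
  norm_num
  ring

/-- The static box given a context. -/
theorem sbx_ctx (hQ : IsLaw Q) (hw : w ≤ J) (hwr : w ≤ r) (hrU : r ≤ U) (hUP : U ≤ P) {S : Type}
    (W : F.Ω → S) (hW : ∀ ω ω', 0 < Q ω → 0 < Q ω' → W ω = W ω' →
      F.ctx σ w r U P a s t ω = F.ctx σ w r U P a s t ω' ∧ F.T ω = F.T ω')
    (hσ : Function.Injective σ) :
    CH Q (F.sbx σ r U P a s t) W ≤ 3 * Real.log 15 := by
  have key := Box.CH_sbx_of_ctx (F := F) (p := Q) (σ := σ) (a := a) (s := s) (t := t) (a' := a)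
    (s' := s) (t' := t) hQ (w := w) (r := r) (U := U) (P := P) (r' := r) (U' := U) (P' := P)
    (D := 1) hw le_rfl hwr (hwr.trans hrU) ((hwr.trans hrU).trans hUP) le_rfl le_rfl le_rfl
    (fun ω _ => by
      refine ⟨?_, ?_, ?_⟩ <;> · simp only [sub_self, zero_mul, add_zero, abs_zero]; positivity)
    W (fun ω ω' hω hω' h => by
      obtain ⟨h1, h2⟩ := hW ω ω' hω hω' h
      exact ⟨h1, h2, (Box.ctx_ext hσ h1).2.1⟩)
  refine key.trans (le_of_eq ?_)
  norm_num

/-- **(B0)** Sum over the windows. -/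
theorem b0_sum (hQ : IsLaw Q) (hσ : Function.Injective σ) {N : ℕ} {w : ℕ → ℕ} (hw : w 0 ≤ r)
    (hst : ∀ j < N, w (j + 1) + X ≤ w j) (hrU : r ≤ U) (hUP : U ≤ P) (hP : P + X ≤ J) :
    ∑ j ∈ range N, dl Q (F.sbx σ (r + X) U (P + X) a s t) (vk F σ (w j) r U P X a s t)
      (fun ω => (F.ctx σ (w j) r U P a s t ω, F.T ω)) ≤
      2 * X * Real.log 2 + 3 * Real.log 15 + 12 * Real.log 15 * N := by
  have h0 := hQ.nonneg
  have hwr : ∀ j ≤ N, w j ≤ r := by
    intro j
    induction j with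
    | zero => intro _; exact hw
    | succ j ih =>
      intro hj
      have := hst j (by omega)
      have := ih (by omega)
      omega
  have h1 := Pool.S6N.tel_fix h0 (F.sbx σ (r + X) U (P + X) a s t)
    (fun j => vk F σ (w j) r U P X a s t) (fun j => F.ctx σ (w j) r U P a s t) F.T (N := N)
    (C := 6 * Real.log 15) (by positivity) (fun j hj =>
      b0_step hQ (by have := hwr j hj.le; omega) (hst j hj) (hwr j hj.le) hrU hUP)
  have h2 : CH Q (F.sbx σ (r + X) U (P + X) a s t)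
      (fun ω => (F.ctx σ (w 0) r U P a s t ω, F.T ω)) ≤
      2 * X * Real.log 2 + 3 * Real.log 15 := by
    have g1 := CH_le_add h0 (F.sbx σ (r + X) U (P + X) a s t) (F.sbx σ r U P a s t)
      (fun ω => (F.ctx σ (w 0) r U P a s t ω, F.T ω))
    have g2 := sbx_ctx (σ := σ) (a := a) (s := s) (t := t) hQ (w := w 0) (r := r) (U := U)
      (P := P) (by omega) hw hrU hUP (fun ω => (F.ctx σ (w 0) r U P a s t ω, F.T ω))
      (fun ω ω' _ _ h => Prod.ext_iff.mp h) hσ
    have g3 := Vd.CH_sbx_rate (σ := σ) (a := a) (s := s) (t := t) hQ (r := r) (U := U) (P := P)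
      (r' := r + X) (U' := U) (P' := P + X) (Nat.le_add_right _ _) le_rfl (Nat.le_add_right _ _)
      (fun ω => (F.sbx σ r U P a s t ω, (F.ctx σ (w 0) r U P a s t ω, F.T ω)))
      (fun ω ω' _ _ h => (Prod.ext_iff.mp h).1)
    push_cast at g3
    have e : ((r : ℝ) + X - r + (U - U) + (P + X - P)) * Real.log 2 = 2 * X * Real.log 2 := by
      ring
    rw [e] at g3
    linarith
  have h3 : ∑ j ∈ range N, dl Q (F.sbx σ (r + X) U (P + X) a s t) (vk F σ (w j) r U P X a s t)
      (fun ω => (F.ctx σ (w j) r U P a s t ω, F.T ω)) =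
      ∑ j ∈ range N, (CH Q (F.sbx σ (r + X) U (P + X) a s t)
        (fun ω => (F.ctx σ (w j) r U P a s t ω, F.T ω)) -
      CH Q (F.sbx σ (r + X) U (P + X) a s t)
        (fun ω => (vk F σ (w j) r U P X a s t ω, (F.ctx σ (w j) r U P a s t ω, F.T ω)))) := rfl
  rw [h3]
  refine h1.trans ?_
  linarith

/-- The number of values of the turning of the normal. -/
theorem rc_dig {Ω' S : Type} [Fintype Ω'] {q : Ω' → ℝ} (hq : IsLaw q) (f : Ω' → F.Ω)
    (hk : ∀ x, 0 < q x → |kk (Fam.pt F (f x))| ≤ B / 2 ^ (P - r)) (W : Ω' → S) :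
    CH q (fun x => rc F r P X kk (f x)) W ≤ X * Real.log 2 + Real.log (2 * (B + 1) + 1) := by
  have hB : ∀ x, 0 < q x → 0 ≤ B := fun x hx => (abs_nonneg _).trans
    (kk_scaled (P := P) (r := r) (hk x hx))
  have hne : ∃ x, 0 < q x := by
    by_contra hcon
    push Not at hcon
    have h1 : ∑ x, q x ≤ 0 := Finset.sum_nonpos fun x _ => hcon x
    rw [hq.sum_one] at h1
    linarith
  obtain ⟨x₀, hx₀⟩ := hne
  have hB0 := hB x₀ hx₀
  have h1 := Sel.CH_near hq (fun x => rc F r P X kk (f x)) W (fun _ => (0 : ℝ))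
    (fun _ _ _ _ _ => rfl) (K := (B + 1) * 2 ^ X) (by positivity) (fun x hx => by
      have h2 := rc_le (X := X) (hk x hx)
      rw [abs_div, abs_of_pos (by positivity : (0 : ℝ) < 2 ^ X),
        div_le_iff₀ (by positivity)] at h2
      rw [sub_zero]
      exact h2)
  refine h1.trans ?_
  rw [← Real.log_pow, ← Real.log_mul (by positivity) (by positivity)]
  refine Real.log_le_log (by positivity) ?_
  have hX : (1 : ℝ) ≤ 2 ^ X := one_le_pow₀ (by norm_num)
  nlinarith

/-- **(M)** Sum over the rows: the turning of the normal at the second time and the digits of the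
line. -/
theorem m_sum (hQ : IsLaw Q) (hwr : w ≤ r) (hrU : r ≤ U) (hUP : U ≤ P) (M : ℕ)
    (hk : ∀ ω, 0 < Q ω → |kk (Fam.pt F ω)| ≤ B / 2 ^ (P - r)) {S : Type}
    (G : F.Ω × F.Ω → S) :
    ∑ k ∈ range M, dl (cpy Q (slam F w)) (fun x => rc F r P X kk x.2)
      (fun x => lk F σ w (r + k * X) (U + k * X) (P + k * X) X a s t x.1)
      (fun x => (F.ctx σ w (r + k * X) (U + k * X) (P + k * X) a s t x.1, G x)) ≤
      X * Real.log 2 + Real.log (2 * (B + 1) + 1) := by
  obtain ⟨hL, -, -, -, hpos, -⟩ := cpy_thm F.Ω _ Q hQ (slam F w)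
  have h0 := hL.nonneg
  have h1 := Pool.S6N.tel_fix h0 (fun x : F.Ω × F.Ω => rc F r P X kk x.2)
    (fun k x => lk F σ w (r + k * X) (U + k * X) (P + k * X) X a s t x.1)
    (fun k x => F.ctx σ w (r + k * X) (U + k * X) (P + k * X) a s t x.1) G (N := M) (C := 0)
    le_rfl (fun k _ => by
      refine le_of_eq (CH_eq_zero h0 fun x x' _ _ h => ?_)
      have h2 := (Prod.ext_iff.mp h).1
      simp only at h2
      have e1 : ∀ n : ℕ, n + (k + 1) * X = (n + k * X) + X := fun n => by ring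
      rw [e1, e1, e1] at h2
      obtain ⟨h3, h4⟩ := ctx_next (by omega) (by omega) (by omega) h2
      exact Prod.ext h4 h3)
  simp only [zero_mul, mul_zero, add_zero] at h1
  refine h1.trans ?_
  exact rc_dig hL (fun x => x.2) (fun x hx => hk x.2 (hpos x hx).2.1) _

end Pool.RPL
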